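import Mathlib

namespace Pool.Agent.P.MP_689636_co

open Finset

open Classical in
/-- Inclusion-exclusion: equal containment counts give equal distributions. -/
theorem ie_fiber {X Y : Type*} [Fintype Y] [DecidableEq Y] (Z : Finset X) (f g : X → Finset Y)
    (h : ∀ T : Finset Y, (Z.filter (fun x => T ⊆ f x)).card = (Z.filter (fun x => T ⊆ g x)).card) :
    ∀ T : Finset Y, (Z.filter (fun x => f x = T)).card = (Z.filter (fun x => g x = T)).card := by
  have key : ∀ (f : X → Finset Y) (T : Finset Y), (Z.filter (fun x => T ⊆ f x)).card =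
      (Z.filter (fun x => f x = T)).card +
        ∑ U ∈ (Finset.univ.filter (fun U : Finset Y => T < U)), (Z.filter (fun x => f x = U)).card := by
    intro f T
    have h1 : (Z.filter (fun x => T ⊆ f x)).card =
        ∑ U ∈ insert T (Finset.univ.filter (fun U : Finset Y => T < U)),
          ((Z.filter (fun x => T ⊆ f x)).filter (fun x => f x = U)).card := by
      apply Finset.card_eq_sum_card_fiberwise
      intro x hx
      simp only [coe_filter, Set.mem_setOf_eq] at hx
      simp only [coe_insert, coe_filter, mem_univ, true_and, Set.mem_insert_iff, Set.mem_setOf_eq]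
      rcases eq_or_lt_of_le (show T ≤ f x from hx.2) with h | h
      · exact Or.inl h.symm
      · exact Or.inr h
    rw [h1, Finset.sum_insert (by simp)]
    congr 1
    · congr 1
      ext x
      simp only [mem_filter]
      constructor
      · rintro ⟨⟨a, _⟩, c⟩; exact ⟨a, c⟩
      · rintro ⟨a, c⟩; exact ⟨⟨a, c ▸ Finset.Subset.refl _⟩, c⟩
    · apply Finset.sum_congr rfl
      intro U hU
      congr 1
      ext x
      simp only [mem_filter, mem_univ, true_and] at hU ⊢
      constructor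
      · rintro ⟨⟨a, _⟩, c⟩; exact ⟨a, c⟩
      · rintro ⟨a, c⟩; exact ⟨⟨a, c ▸ hU.le⟩, c⟩
  intro T
  induction T using WellFoundedGT.induction with
  | ind T ih =>
    have h1 := key f T
    have h2 := key g T
    have h3 : ∑ U ∈ (Finset.univ.filter (fun U : Finset Y => T < U)),
        (Z.filter (fun x => f x = U)).card =
        ∑ U ∈ (Finset.univ.filter (fun U : Finset Y => T < U)),
        (Z.filter (fun x => g x = U)).card := by
      apply Finset.sum_congr rfl
      intro U hU
      exact ih U (by simpa using hU)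
    have := h T
    omega

open Classical in
theorem ie_pred {X Y : Type*} [Fintype Y] [DecidableEq Y] (Z : Finset X) (f g : X → Finset Y)
    (h : ∀ T : Finset Y, (Z.filter (fun x => T ⊆ f x)).card = (Z.filter (fun x => T ⊆ g x)).card)
    (P : Finset Y → Prop) :
    (Z.filter (fun x => P (f x))).card = (Z.filter (fun x => P (g x))).card := by
  have key : ∀ (f : X → Finset Y), (Z.filter (fun x => P (f x))).card =
      ∑ U ∈ (Finset.univ.filter P), (Z.filter (fun x => f x = U)).card := by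
    intro f
    have h1 : (Z.filter (fun x => P (f x))).card =
        ∑ U ∈ (Finset.univ.filter P),
          ((Z.filter (fun x => P (f x))).filter (fun x => f x = U)).card := by
      apply Finset.card_eq_sum_card_fiberwise
      intro x hx
      simp only [coe_filter, Set.mem_setOf_eq] at hx
      simpa using hx.2
    rw [h1]
    apply Finset.sum_congr rfl
    intro U hU
    congr 1
    ext x
    simp only [mem_filter, mem_univ, true_and] at hU ⊢
    constructor
    · rintro ⟨⟨a, _⟩, c⟩; exact ⟨a, c⟩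
    · rintro ⟨a, c⟩; exact ⟨⟨a, c ▸ hU⟩, c⟩
  rw [key f, key g]
  exact Finset.sum_congr rfl (fun U _ => ie_fiber Z f g h U)

section Shape

variable {α : Type*} [Fintype α] [LinearOrder α]

/-- centrally symmetric permutations -/
def Sym (r : α → α) (w : Equiv.Perm α) : Prop := ∀ x, w (r x) = r (w x)

/-- same data outside the shape and its mirror image -/
def Rel (r : α → α) (L : α → α → Prop) (w w' : Equiv.Perm α) : Prop :=
  (∀ x, L x (w x) ↔ L x (w' x)) ∧ (∀ y, L (w.symm y) y ↔ L (w'.symm y) y) ∧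
    (∀ x, ¬ L x (w x) → ¬ L (r x) (w (r x)) → w x = w' x)

def Av12 (L : α → α → Prop) (w : Equiv.Perm α) : Prop :=
  ∀ x x', x < x' → w x < w x' → ¬ L x' (w x')

def Av21 (L : α → α → Prop) (w : Equiv.Perm α) : Prop :=
  ∀ x x', x < x' → w x' < w x → ¬ L x' (w x)

omit [Fintype α] [LinearOrder α] in
theorem Rel.refl (r : α → α) (L : α → α → Prop) (w : Equiv.Perm α) : Rel r L w w :=
  ⟨fun _ => Iff.rfl, fun _ => Iff.rfl, fun _ _ _ => rfl⟩

omit [Fintype α] [LinearOrder α] in
theorem Rel.symm {r : α → α} {L : α → α → Prop} {w w' : Equiv.Perm α} (h : Rel r L w w') :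
    Rel r L w' w :=
  ⟨fun x => (h.1 x).symm, fun y => (h.2.1 y).symm, fun x h1 h2 =>
    (h.2.2 x (fun a => h1 ((h.1 x).1 a)) (fun a => h2 ((h.1 (r x)).1 a))).symm⟩

omit [Fintype α] [LinearOrder α] in
theorem Rel.trans {r : α → α} {L : α → α → Prop} {w w' w'' : Equiv.Perm α} (h : Rel r L w w')
    (h' : Rel r L w' w'') : Rel r L w w'' :=
  ⟨fun x => (h.1 x).trans (h'.1 x), fun y => (h.2.1 y).trans (h'.2.1 y), fun x h1 h2 =>
    (h.2.2 x h1 h2).trans
      (h'.2.2 x (fun a => h1 ((h.1 x).2 a)) (fun a => h2 ((h.1 (r x)).2 a)))⟩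

omit [Fintype α] [LinearOrder α] in
theorem eq_of_rel {r : α → α} (hrr : ∀ x, r (r x) = x) {L : α → α → Prop} {w w' : Equiv.Perm α}
    (hw : Sym r w) (hw' : Sym r w') (h : Rel r L w w')
    (hy : ∀ y, L (w.symm y) y → w.symm y = w'.symm y) : w = w' := by
  have h1 : ∀ x, L x (w x) → w x = w' x := by
    intro x hx
    have := hy (w x) (by simpa using hx)
    rw [Equiv.symm_apply_apply, Equiv.eq_symm_apply] at this
    exact this.symm
  ext x
  by_cases a : L x (w x)
  · exact h1 x a
  · by_cases b : L (r x) (w (r x))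
    · have := h1 _ b
      rw [hw, hw'] at this
      have := congrArg r this
      rwa [hrr, hrr] at this
    · exact h.2.2 x a b

/-- one step of the uniqueness arguments -/
theorem uniq_aux {r : α → α} {L : α → α → Prop} {w w' : Equiv.Perm α} (h : Rel r L w w')
    (hA : (Av12 L w ∧ Av12 L w') ∨ (Av21 L w ∧ Av21 L w')) (y : α) (hy : L (w.symm y) y)
    (hmax : ∀ z, y < z → L (w.symm z) z → w.symm z = w'.symm z) :
    ¬ (w.symm y < w'.symm y) := by
  intro hlt
  set x := w.symm y with hx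
  set x' := w'.symm y with hx'
  have e1 : w x = y := by simp [hx]
  have e2 : w' x' = y := by simp [hx']
  have l2 : L x' y := (h.2.1 y).1 hy
  rcases hA with ⟨_, hA⟩ | ⟨hA, _⟩
  · -- look at column x in w'
    have l3 : L x (w' x) := (h.1 x).1 (e1 ▸ hy)
    rcases lt_trichotomy (w' x) y with c | c | c
    · exact hA x x' hlt (e2 ▸ c) (e2 ▸ l2)
    · have : x = x' := w'.injective (c.trans e2.symm)
      exact hlt.ne this
    · have l4 : L (w.symm (w' x)) (w' x) := (h.2.1 (w' x)).2 (by simpa using l3)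
      have := hmax _ c l4
      rw [Equiv.symm_apply_apply, Equiv.symm_apply_eq] at this
      rw [this, e1] at c
      exact lt_irrefl _ c
  · have l3 : L x' (w x') := (h.1 x').2 (e2 ▸ l2)
    rcases lt_trichotomy (w x') y with c | c | c
    · exact hA x x' hlt (e1 ▸ c) (e1 ▸ l2)
    · have : x' = x := w.injective (c.trans e1.symm)
      exact hlt.ne this.symm
    · have := hmax _ c (by simpa using l3)
      rw [Equiv.symm_apply_apply, Equiv.eq_symm_apply] at this
      rw [← this, e2] at c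
      exact lt_irrefl _ c

theorem uniq {r : α → α} (hrr : ∀ x, r (r x) = x) {L : α → α → Prop} {w w' : Equiv.Perm α}
    (hw : Sym r w) (hw' : Sym r w') (h : Rel r L w w')
    (hA : (Av12 L w ∧ Av12 L w') ∨ (Av21 L w ∧ Av21 L w')) : w = w' := by
  apply eq_of_rel hrr hw hw' h
  intro y
  induction y using WellFoundedGT.induction with
  | ind y ih =>
    intro hy
    have a1 := uniq_aux h hA y hy (fun z hz => ih z hz)
    have a2 := uniq_aux h.symm (by tauto) y ((h.2.1 y).1 hy)
      (fun z hz hl => (ih z hz ((h.2.1 z).2 hl)).symm)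
    exact le_antisymm (not_lt.1 a2) (not_lt.1 a1)

/-- the mirrored double swap -/
theorem swap_step {r : α → α} (hrr : ∀ x, r (r x) = x) {L : α → α → Prop}
    (hL : ∀ x y, L x y → ¬ L (r x) (r y)) {w : Equiv.Perm α} (hw : Sym r w) {x x' : α}
    (hne : x ≠ x') (l1 : L x (w x)) (l2 : L x' (w x')) (l3 : L x (w x')) (l4 : L x' (w x)) :
    ∃ v : Equiv.Perm α, Sym r v ∧ Rel r L w v ∧ v x = w x' ∧ v (r x') = w (r x) ∧
      ∀ z, z ≠ x → z ≠ x' → z ≠ r x → z ≠ r x' → v z = w z := by
  classical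
  have rinj : Function.Injective r := fun a b hab => by rw [← hrr a, hab, hrr]
  have n1 : ¬ L (r x) (w (r x)) := by rw [hw]; exact hL _ _ l1
  have n2 : ¬ L (r x') (w (r x')) := by rw [hw]; exact hL _ _ l2
  have n3 : ¬ L (r x) (w (r x')) := by rw [hw]; exact hL _ _ l3
  have n4 : ¬ L (r x') (w (r x)) := by rw [hw]; exact hL _ _ l4
  have d1 : r x ≠ x := fun e => n1 (by rw [e]; exact l1)
  have d2 : r x ≠ x' := fun e => n1 (by rw [e]; exact l2)
  have d3 : r x' ≠ x := fun e => n2 (by rw [e]; exact l1)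
  have d4 : r x' ≠ x' := fun e => n2 (by rw [e]; exact l2)
  have d5 : r x ≠ r x' := fun e => hne (rinj e)
  let v : Equiv.Perm α := w * (Equiv.swap x x' * Equiv.swap (r x) (r x'))
  have v1 : v x = w x' := by
    simp [v, Equiv.swap_apply_of_ne_of_ne d1.symm d3.symm]
  have v2 : v x' = w x := by
    simp [v, Equiv.swap_apply_of_ne_of_ne d2.symm d4.symm]
  have v3 : v (r x) = w (r x') := by
    simp [v, Equiv.swap_apply_of_ne_of_ne d3 d4]
  have v4 : v (r x') = w (r x) := by
    simp [v, Equiv.swap_apply_of_ne_of_ne d1 d2]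
  have v5 : ∀ z, z ≠ x → z ≠ x' → z ≠ r x → z ≠ r x' → v z = w z := by
    intro z a b c d
    simp [v, Equiv.swap_apply_of_ne_of_ne c d, Equiv.swap_apply_of_ne_of_ne a b]
  have cases5 : ∀ z, z = x ∨ z = x' ∨ z = r x ∨ z = r x' ∨
      (z ≠ x ∧ z ≠ x' ∧ z ≠ r x ∧ z ≠ r x') := by
    intro z; tauto
  refine ⟨v, ?_, ⟨?_, ?_, ?_⟩, v1, v4, v5⟩
  · intro z
    rcases cases5 z with e | e | e | e | ⟨a, b, c, d⟩
    · rw [e, v3, v1, hw]
    · rw [e, v4, v2, hw]
    · rw [e, hrr, v3, v1, hw, hrr]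
    · rw [e, hrr, v4, v2, hw, hrr]
    · rw [v5 z a b c d, v5 (r z), hw]
      · intro e; exact c (by rw [← e, hrr])
      · intro e; exact d (by rw [← e, hrr])
      · intro e; exact a (rinj e)
      · intro e; exact b (rinj e)
  · intro z
    rcases cases5 z with e | e | e | e | ⟨a, b, c, d⟩
    · rw [e, v1]; tauto
    · rw [e, v2]; tauto
    · rw [e, v3]; tauto
    · rw [e, v4]; tauto
    · rw [v5 z a b c d]
  · intro y
    obtain ⟨z, rfl⟩ := w.surjective y
    rw [Equiv.symm_apply_apply]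
    rcases cases5 z with e | e | e | e | ⟨a, b, c, d⟩
    · rw [e, ← v2, Equiv.symm_apply_apply, v2]; tauto
    · rw [e, ← v1, Equiv.symm_apply_apply, v1]; tauto
    · rw [e, ← v4, Equiv.symm_apply_apply, v4]; tauto
    · rw [e, ← v3, Equiv.symm_apply_apply, v3]; tauto
    · rw [← v5 z a b c d, Equiv.symm_apply_apply]
  · intro z h1 h2
    rcases cases5 z with e | e | e | e | ⟨a, b, c, d⟩
    · rw [e] at h1; exact absurd l1 h1
    · rw [e] at h1; exact absurd l2 h1
    · rw [e, hrr] at h2; exact absurd l1 h2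
    · rw [e, hrr] at h2; exact absurd l2 h2
    · exact (v5 z a b c d).symm

theorem exists_av12 {r : α → α} (hrr : ∀ x, r (r x) = x) (hr : StrictAnti r) {L : α → α → Prop}
    (hdown : ∀ x y x' y', x ≤ x' → y ≤ y' → L x' y' → L x y)
    (hL : ∀ x y, L x y → ¬ L (r x) (r y)) {w : Equiv.Perm α} (hw : Sym r w) :
    ∃ v : Equiv.Perm α, Sym r v ∧ Rel r L w v ∧ Av12 L v := by
  classical
  obtain ⟨v, hv, hmax⟩ := Finset.exists_max_image
    (Finset.univ.filter (fun v : Equiv.Perm α => Sym r v ∧ Rel r L w v))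
    (fun v => toLex (fun x => v x)) ⟨w, by simp [hw, Rel.refl]⟩
  simp only [mem_filter, mem_univ, true_and] at hv hmax
  refine ⟨v, hv.1, hv.2, ?_⟩
  intro x x' hx hvx l2
  obtain ⟨u, hu, hrel, u1, u2, u3⟩ := swap_step hrr hL hv.1 hx.ne
    (hdown _ _ _ _ hx.le hvx.le l2) l2 (hdown _ _ _ _ hx.le le_rfl l2)
    (hdown _ _ _ _ le_rfl hvx.le l2)
  have hle := hmax u ⟨hu, hv.2.trans hrel⟩
  apply not_lt.2 hle
  have hr' : r x' < r x := hr hx
  refine ⟨min x (r x'), ?_, ?_⟩
  · intro j hj
    rw [lt_min_iff] at hj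
    exact (u3 j hj.1.ne (hj.1.trans hx).ne (hj.2.trans hr').ne hj.2.ne).symm
  · rcases min_choice x (r x') with e | e
    · rw [e]; show v x < u x; rw [u1]; exact hvx
    · rw [e]; show v (r x') < u (r x'); rw [u2, hv.1, hv.1]; exact hr hvx

theorem exists_av21 {r : α → α} (hrr : ∀ x, r (r x) = x) (hr : StrictAnti r) {L : α → α → Prop}
    (hdown : ∀ x y x' y', x ≤ x' → y ≤ y' → L x' y' → L x y)
    (hL : ∀ x y, L x y → ¬ L (r x) (r y)) {w : Equiv.Perm α} (hw : Sym r w) :
    ∃ v : Equiv.Perm α, Sym r v ∧ Rel r L w v ∧ Av21 L v := by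
  classical
  obtain ⟨v, hv, hmin⟩ := Finset.exists_min_image
    (Finset.univ.filter (fun v : Equiv.Perm α => Sym r v ∧ Rel r L w v))
    (fun v => toLex (fun x => v x)) ⟨w, by simp [hw, Rel.refl]⟩
  simp only [mem_filter, mem_univ, true_and] at hv hmin
  refine ⟨v, hv.1, hv.2, ?_⟩
  intro x x' hx hvx l4
  obtain ⟨u, hu, hrel, u1, u2, u3⟩ := swap_step hrr hL hv.1 hx.ne
    (hdown _ _ _ _ hx.le le_rfl l4) (hdown _ _ _ _ le_rfl hvx.le l4)
    (hdown _ _ _ _ hx.le hvx.le l4) l4
  have hle := hmin u ⟨hu, hv.2.trans hrel⟩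
  apply not_lt.2 hle
  have hr' : r x' < r x := hr hx
  refine ⟨min x (r x'), ?_, ?_⟩
  · intro j hj
    rw [lt_min_iff] at hj
    exact (u3 j hj.1.ne (hj.1.trans hx).ne (hj.2.trans hr').ne hj.2.ne)
  · rcases min_choice x (r x') with e | e
    · rw [e]; show u x < v x; rw [u1]; exact hvx
    · rw [e]; show u (r x') < v (r x'); rw [u2, hv.1, hv.1]; exact hr hvx

open Classical in
theorem shape_count {r : α → α} (hrr : ∀ x, r (r x) = x) (hr : StrictAnti r) {L : α → α → Prop}
    (hdown : ∀ x y x' y', x ≤ x' → y ≤ y' → L x' y' → L x y)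
    (hL : ∀ x y, L x y → ¬ L (r x) (r y)) (Z : Finset (Equiv.Perm α))
    (hZ : ∀ w ∈ Z, Sym r w) (hZ' : ∀ w ∈ Z, ∀ v, Sym r v → Rel r L w v → v ∈ Z) :
    (Z.filter (Av12 L)).card = (Z.filter (Av21 L)).card := by
  apply le_antisymm
  · apply Finset.card_le_card_of_forall_subsingleton (Rel r L)
    · intro w hw
      rw [mem_filter] at hw
      obtain ⟨v, h1, h2, h3⟩ := exists_av21 hrr hr hdown hL (hZ w hw.1)
      exact ⟨v, by rw [mem_filter]; exact ⟨hZ' w hw.1 v h1 h2, h3⟩, h2⟩
    · intro v _ a ha b hb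
      simp only [mem_filter, Set.mem_setOf_eq] at ha hb
      exact uniq hrr (hZ a ha.1.1) (hZ b hb.1.1) (ha.2.trans hb.2.symm) (Or.inl ⟨ha.1.2, hb.1.2⟩)
  · apply Finset.card_le_card_of_forall_subsingleton (Rel r L)
    · intro w hw
      rw [mem_filter] at hw
      obtain ⟨v, h1, h2, h3⟩ := exists_av12 hrr hr hdown hL (hZ w hw.1)
      exact ⟨v, by rw [mem_filter]; exact ⟨hZ' w hw.1 v h1 h2, h3⟩, h2⟩
    · intro v _ a ha b hb
      simp only [mem_filter, Set.mem_setOf_eq] at ha hb
      exact uniq hrr (hZ a ha.1.1) (hZ b hb.1.1) (ha.2.trans hb.2.symm) (Or.inr ⟨ha.1.2, hb.1.2⟩)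

end Shape

end Pool.Agent.P.MP_689636_co
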