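import Mathlib

namespace Pool.Agent.P.MP_689636_co

/-- The set `[±n] = {-n, ..., -1, 1, ..., n}` as a subtype of the integers. -/
abbrev PM (n : ℕ) : Type := ↥((Finset.Icc (-(n : ℤ)) (n : ℤ)).erase 0)

/-- `w` is a signed permutation: `w(-i) = -w(i)`. -/
def IsSigned {n : ℕ} (w : Equiv.Perm (PM n)) : Prop :=
  ∀ i j : PM n, (j : ℤ) = -(i : ℤ) → (w j : ℤ) = -(w i : ℤ)

/-- `w` contains the pattern with one-line notation `p 0, p 1, ..., p (k-1)`. -/
def Contains {n k : ℕ} (w : Equiv.Perm (PM n)) (p : Fin k → ℕ) : Prop :=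
  ∃ a : Fin k → PM n, StrictMono a ∧ ∀ r s : Fin k, w (a r) < w (a s) ↔ p r < p s

/-- The pattern `1 2 3 ... k`. -/
def iota (k : ℕ) : Fin k → ℕ := fun r => (r : ℕ) + 1

/-- The pattern `2 1 3 4 ... (k-2) k (k-1)`. -/
def tau (k : ℕ) : Fin k → ℕ := fun r =>
  if (r : ℕ) = 0 then 2 else if (r : ℕ) = 1 then 1
  else if (r : ℕ) + 2 = k then k else if (r : ℕ) + 1 = k then k - 1 else (r : ℕ) + 1

end Pool.Agent.P.MP_689636_co
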