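import Mathlib

namespace Pool.Agent.P.MP_689636_co

/-- The word `p(1) ... p(k)` of a permutation `p` of `Fin k` (values `1, ..., k`). -/
def oneLine {k : ℕ} (p : Equiv.Perm (Fin k)) : Fin k → ℕ := fun r => (p r : ℕ) + 1

/-- The pattern that starts with `a, a-1, ..., 1`, ends with `k, k-1, ..., k-a+1`
and agrees with `p` at the positions in between. -/
def flipEnds (a : ℕ) {k : ℕ} (p : Equiv.Perm (Fin k)) : Fin k → ℕ := fun r =>
  if (r : ℕ) < a then a - r else if k ≤ r + a then 2 * k - a - r else (p r : ℕ) + 1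

end Pool.Agent.P.MP_689636_co
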