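import Mathlib

namespace Pool.Agent.P.MP_689636_co.BWX

open Classical in
/-- length of the longest increasing chain of `u` in the rectangle below `(i, j)` -/
noncomputable def lis (u : ℕ → ℕ → Prop) : ℕ → ℕ → ℕ
  | 0, _ => 0
  | _ + 1, 0 => 0
  | i + 1, j + 1 => max (max (lis u i (j + 1)) (lis u (i + 1) j))
      (lis u i j + if u i j then 1 else 0)

theorem lis_zero_left (u : ℕ → ℕ → Prop) (j : ℕ) : lis u 0 j = 0 := by
  rw [lis]

theorem lis_zero_right (u : ℕ → ℕ → Prop) (i : ℕ) : lis u i 0 = 0 := by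
  cases i with
  | zero => rw [lis]
  | succ i => rw [lis]

open Classical in
theorem lis_succ (u : ℕ → ℕ → Prop) (i j : ℕ) : lis u (i + 1) (j + 1) =
    max (max (lis u i (j + 1)) (lis u (i + 1) j)) (lis u i j + if u i j then 1 else 0) := by
  rw [lis]

theorem lis_le_left (u : ℕ → ℕ → Prop) (i j : ℕ) : lis u i j ≤ lis u (i + 1) j := by
  cases j with
  | zero => rw [lis_zero_right, lis_zero_right]
  | succ j => rw [lis_succ]; omega

theorem lis_le_right (u : ℕ → ℕ → Prop) (i j : ℕ) : lis u i j ≤ lis u i (j + 1) := by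
  cases i with
  | zero => rw [lis_zero_left, lis_zero_left]
  | succ i => rw [lis_succ]; omega

theorem lis_mono (u : ℕ → ℕ → Prop) {i j i' j' : ℕ} (h1 : i ≤ i') (h2 : j ≤ j') :
    lis u i j ≤ lis u i' j' := by
  have a : lis u i j ≤ lis u i' j :=
    monotone_nat_of_le_succ (f := fun t => lis u t j) (fun t => lis_le_left u t j) h1
  have b : lis u i' j ≤ lis u i' j' :=
    monotone_nat_of_le_succ (f := fun t => lis u i' t) (fun t => lis_le_right u i' t) h2
  omega

theorem lis_pt {u : ℕ → ℕ → Prop} {x y i j : ℕ} (h : u x y) (h1 : x < i) (h2 : y < j) :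
    lis u x y + 1 ≤ lis u i j := by
  have a := lis_succ u x y
  rw [if_pos h] at a
  have b := lis_mono u (show x + 1 ≤ i by omega) (show y + 1 ≤ j by omega)
  omega

theorem lis_col (u : ℕ → ℕ → Prop) (i j : ℕ) (h : lis u i j < lis u (i + 1) j) :
    ∃ y, y < j ∧ u i y ∧ lis u (i + 1) j = lis u i y + 1 := by
  induction j with
  | zero => rw [lis_zero_right, lis_zero_right] at h; omega
  | succ j ih =>
    have a := lis_succ u i j
    have b := lis_le_right u i j
    by_cases c : lis u (i + 1) (j + 1) = lis u (i + 1) j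
    · obtain ⟨y, h1, h2, h3⟩ := ih (by omega)
      exact ⟨y, by omega, h2, by omega⟩
    · by_cases d : u i j
      · rw [if_pos d] at a
        exact ⟨j, by omega, d, by omega⟩
      · rw [if_neg d] at a
        omega

theorem lis_row (u : ℕ → ℕ → Prop) (i j : ℕ) (h : lis u i j < lis u i (j + 1)) :
    ∃ x, x < i ∧ u x j ∧ lis u i (j + 1) = lis u x j + 1 := by
  induction i with
  | zero => rw [lis_zero_left, lis_zero_left] at h; omega
  | succ i ih =>
    have a := lis_succ u i j
    have b := lis_le_left u i j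
    by_cases c : lis u (i + 1) (j + 1) = lis u i (j + 1)
    · obtain ⟨x, h1, h2, h3⟩ := ih (by omega)
      exact ⟨x, by omega, h2, by omega⟩
    · by_cases d : u i j
      · rw [if_pos d] at a
        exact ⟨i, by omega, d, by omega⟩
      · rw [if_neg d] at a
        omega

theorem lis_col_le (u : ℕ → ℕ → Prop) (i j : ℕ) : lis u (i + 1) j ≤ lis u i j + 1 := by
  by_cases h : lis u i j < lis u (i + 1) j
  · obtain ⟨y, h1, _, h3⟩ := lis_col u i j h
    have := lis_mono u (le_refl i) h1.le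
    omega
  · omega

theorem lis_row_le (u : ℕ → ℕ → Prop) (i j : ℕ) : lis u i (j + 1) ≤ lis u i j + 1 := by
  by_cases h : lis u i j < lis u i (j + 1)
  · obtain ⟨x, h1, _, h3⟩ := lis_row u i j h
    have := lis_mono u h1.le (le_refl j)
    omega
  · omega

theorem lis_level (u : ℕ → ℕ → Prop) (a : ℕ) : ∀ i j, a + 1 ≤ lis u i j →
    ∃ x y, x < i ∧ y < j ∧ u x y ∧ lis u x y = a := by
  intro i
  induction i with
  | zero => intro j h; rw [lis_zero_left] at h; omega
  | succ i ih =>
    intro j h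
    by_cases c : a + 1 ≤ lis u i j
    · obtain ⟨x, y, h1, h2⟩ := ih j c
      exact ⟨x, y, by omega, h2⟩
    · obtain ⟨y, h1, h2, h3⟩ := lis_col u i j (by omega)
      have := lis_mono u (le_refl i) h1.le
      exact ⟨i, y, by omega, h1, h2, by omega⟩

/-- an increasing chain of given length in a rectangle -/
inductive Inc (u : ℕ → ℕ → Prop) : ℕ → ℕ → ℕ → Prop
  | nil (i j : ℕ) : Inc u 0 i j
  | cons {a x y i j : ℕ} : Inc u a x y → u x y → x < i → y < j → Inc u (a + 1) i j

theorem inc_iff (u : ℕ → ℕ → Prop) (a i j : ℕ) : Inc u a i j ↔ a ≤ lis u i j := by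
  constructor
  · intro h
    induction h with
    | nil => omega
    | cons _ h1 h2 h3 ih =>
      have := lis_pt h1 h2 h3
      omega
  · induction a generalizing i j with
    | zero => intro _; exact Inc.nil i j
    | succ a ih =>
      intro h
      obtain ⟨x, y, h1, h2, h3, h4⟩ := lis_level u a i j h
      exact Inc.cons (ih x y h4.ge) h3 h1 h2

/-- a decreasing chain: columns below the second index, rows between the third index and `j` -/
inductive Dec (u : ℕ → ℕ → Prop) (j : ℕ) : ℕ → ℕ → ℕ → Prop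
  | nil (i lo : ℕ) : Dec u j 0 i lo
  | cons {a x y i lo : ℕ} : Dec u j a x (y + 1) → u x y → x < i → lo ≤ y → y < j →
      Dec u j (a + 1) i lo

theorem Dec.mono {u : ℕ → ℕ → Prop} {j a i lo i' lo' : ℕ} (h : Dec u j a i lo) (h1 : i ≤ i')
    (h2 : lo' ≤ lo) : Dec u j a i' lo' := by
  cases h with
  | nil => exact Dec.nil _ _
  | cons g1 g2 g3 g4 g5 => exact Dec.cons g1 g2 (by omega) (by omega) g5

theorem Dec.mono_top {u : ℕ → ℕ → Prop} {j j' a i lo : ℕ} (h : Dec u j a i lo) (h1 : j ≤ j') :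
    Dec u j' a i lo := by
  induction h with
  | nil => exact Dec.nil _ _
  | cons _ g2 g3 g4 g5 ih => exact Dec.cons ih g2 g3 g4 (by omega)

theorem Dec.le {u : ℕ → ℕ → Prop} {j a i lo : ℕ} (h : Dec u j a i lo) : a ≤ i := by
  induction h with
  | nil => omega
  | cons _ _ g3 _ _ ih => omega

theorem Dec.inv {u : ℕ → ℕ → Prop} {j a i lo : ℕ} (h : Dec u j (a + 1) i lo) :
    ∃ x y, Dec u j a x (y + 1) ∧ u x y ∧ x < i ∧ lo ≤ y ∧ y < j := by
  cases h with
  | cons g1 g2 g3 g4 g5 => exact ⟨_, _, g1, g2, g3, g4, g5⟩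

/-- the shadow points -/
def sh (u : ℕ → ℕ → Prop) : ℕ → ℕ → Prop := fun i j =>
  lis u i (j + 1) = lis u i j + 1 ∧ lis u (i + 1) j = lis u i j + 1

/-- at most one point in each row and column -/
def PP (u : ℕ → ℕ → Prop) : Prop :=
  (∀ i j j', u i j → u i j' → j = j') ∧ (∀ i i' j, u i j → u i' j → i = i')

theorem sh_col {u : ℕ → ℕ → Prop} {i j : ℕ} (h : sh u i j) :
    ∃ y, y < j ∧ u i y ∧ lis u i y = lis u i j := by
  obtain ⟨y, h1, h2, h3⟩ := lis_col u i j (by have := h.2; omega)
  exact ⟨y, h1, h2, by have := h.2; omega⟩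

theorem sh_row {u : ℕ → ℕ → Prop} {i j : ℕ} (h : sh u i j) :
    ∃ x, x < i ∧ u x j ∧ lis u x j = lis u i j := by
  obtain ⟨x, h1, h2, h3⟩ := lis_row u i j (by have := h.1; omega)
  exact ⟨x, h1, h2, by have := h.1; omega⟩

theorem PP.sh {u : ℕ → ℕ → Prop} (h : PP u) : PP (sh u) := by
  have a : ∀ i j j', j < j' → BWX.sh u i j → BWX.sh u i j' → False := by
    intro i j j' hj h1 h2
    obtain ⟨y, _, b2, b3⟩ := sh_col h1
    obtain ⟨y', _, c2, c3⟩ := sh_col h2
    have e := h.1 i y y' b2 c2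
    subst e
    have := lis_mono u (le_refl i) (show j + 1 ≤ j' by omega)
    have := h1.1
    omega
  have b : ∀ i i' j, i < i' → BWX.sh u i j → BWX.sh u i' j → False := by
    intro i i' j hi h1 h2
    obtain ⟨x, _, b2, b3⟩ := sh_row h1
    obtain ⟨x', _, c2, c3⟩ := sh_row h2
    have e := h.2 x x' j b2 c2
    subst e
    have := lis_mono u (show i + 1 ≤ i' by omega) (le_refl j)
    have := h1.2
    omega
  constructor
  · intro i j j' h1 h2
    rcases lt_trichotomy j j' with c | c | c
    · exact (a i j j' c h1 h2).elim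
    · exact c
    · exact (a i j' j c h2 h1).elim
  · intro i i' j h1 h2
    rcases lt_trichotomy i i' with c | c | c
    · exact (b i i' j c h1 h2).elim
    · exact c
    · exact (b i' i j c h2 h1).elim

theorem first_jump (g : ℕ → ℕ) (l s : ℕ) : ∀ t, s ≤ t → g s ≤ l → l < g t →
    ∃ m, s ≤ m ∧ m < t ∧ g m ≤ l ∧ l < g (m + 1) := by
  intro t ht
  induction t, ht using Nat.le_induction with
  | base => intro h1 h2; omega
  | succ t ht ih =>
    intro h1 h2
    by_cases c : l < g t
    · obtain ⟨m, a1, a2, a3⟩ := ih h1 c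
      exact ⟨m, a1, by omega, a3⟩
    · exact ⟨t, ht, by omega, by omega, h2⟩

theorem sh_between {u : ℕ → ℕ → Prop} (h : PP u) {x0 y0 x y : ℕ} (h0 : u x0 y0) (h1 : u x y)
    (hx : x0 < x) (hy : y < y0) :
    ∃ s t, x0 < s ∧ s ≤ x ∧ y < t ∧ t ≤ y0 ∧ sh u s t := by
  by_cases c : lis u x y ≤ lis u x0 y0
  · have a1 : lis u x (y + 1) ≤ lis u x y := by
      by_contra d
      obtain ⟨z, b1, b2, _⟩ := lis_row u x y (by omega)
      have := h.2 z x y b2 h1
      omega
    have a2 := lis_pt h0 hx (show y0 < y0 + 1 by omega)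
    obtain ⟨m, b1, b2, b3, b4⟩ := first_jump (fun t => lis u x t) (lis u x y) (y + 1) (y0 + 1)
      (by omega) a1 (by omega)
    have a3 := lis_mono u (le_refl x) (show y ≤ m by omega)
    have a4 := lis_row_le u x m
    have a5 := lis_col_le u x m
    have a6 := lis_pt h1 (show x < x + 1 by omega) (show y < m by omega)
    exact ⟨x, m, hx, le_rfl, by omega, by omega, by omega, by omega⟩
  · have a1 : lis u (x0 + 1) y0 ≤ lis u x0 y0 := by
      by_contra d
      obtain ⟨z, b1, b2, _⟩ := lis_col u x0 y0 (by omega)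
      have := h.1 x0 z y0 b2 h0
      omega
    have a2 := lis_pt h1 (show x < x + 1 by omega) hy
    obtain ⟨m, b1, b2, b3, b4⟩ := first_jump (fun t => lis u t y0) (lis u x0 y0) (x0 + 1) (x + 1)
      (by omega) a1 (by omega)
    have a3 := lis_mono u (show x0 ≤ m by omega) (le_refl y0)
    have a4 := lis_row_le u m y0
    have a5 := lis_col_le u m y0
    have a6 := lis_pt h0 (show x0 < m by omega) (show y0 < y0 + 1 by omega)
    exact ⟨m, y0, by omega, by omega, hy, le_rfl, by omega, by omega⟩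

theorem dec_to_sh {u : ℕ → ℕ → Prop} (h : PP u) (j a : ℕ) : ∀ x y, Dec u j a x (y + 1) →
    u x y → Dec (sh u) j a (x + 1) (y + 1) := by
  induction a with
  | zero => intro x y _ _; exact Dec.nil _ _
  | succ a ih =>
    intro x y h1 h2
    obtain ⟨x0, y0, g1, g2, g3, g4, g5⟩ := h1.inv
    obtain ⟨s, t, b1, b2, b3, b4, b5⟩ := sh_between h g2 h2 g3 (by omega)
    exact Dec.cons ((ih x0 y0 g1 g2).mono (by omega) (by omega)) b5 (by omega) (by omega)
      (by omega)

theorem sh_to_dec (u : ℕ → ℕ → Prop) (j a : ℕ) : ∀ x y, Dec (sh u) j a x (y + 1) →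
    sh u x y → y < j →
    ∃ s t, u s t ∧ Dec u j a s (t + 1) ∧ t < j ∧ s < x ∧ lis u x y ≤ lis u s t := by
  induction a with
  | zero =>
    intro x y _ h2 h3
    obtain ⟨s, b1, b2, b3⟩ := sh_row h2
    exact ⟨s, y, b2, Dec.nil _ _, h3, b1, b3.ge⟩
  | succ a ih =>
    intro x y h1 h2 h3
    obtain ⟨x0, y0, g1, g2, g3, g4, g5⟩ := h1.inv
    obtain ⟨s0, t0, c1, c2, c3, c4, c5⟩ := ih x0 y0 g1 g2 g5
    have c6 : y0 ≤ t0 := by
      by_contra d
      have := lis_pt c1 c4 (show t0 < y0 by omega)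
      omega
    by_cases c : lis u x y ≤ lis u x0 y0
    · obtain ⟨q, b1, b2, b3⟩ := sh_col g2
      exact ⟨x0, q, b2, Dec.cons c2 c1 c4 (by omega) c3, by omega, g3, by omega⟩
    · obtain ⟨s, b1, b2, b3⟩ := sh_row h2
      have b4 : x0 < s := by
        by_contra d
        have := lis_mono u (show s ≤ x0 by omega) (show y ≤ y0 by omega)
        omega
      exact ⟨s, y, b2, Dec.cons c2 c1 (by omega) (by omega) c3, h3, b1, b3.ge⟩

theorem dec_sh_iff {u : ℕ → ℕ → Prop} (h : PP u) (a i j : ℕ) :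
    Dec u j (a + 2) i 0 ↔ Dec (sh u) j (a + 1) i 0 := by
  constructor
  · intro g
    obtain ⟨x, y, g1, g2, g3, _, _⟩ := g.inv
    exact (dec_to_sh h j (a + 1) x y g1 g2).mono (by omega) (by omega)
  · intro g
    obtain ⟨x, y, g1, g2, g3, _, g5⟩ := g.inv
    obtain ⟨s, t, c1, c2, c3, c4, c5⟩ := sh_to_dec u j a x y g1 g2 g5
    have c6 : y ≤ t := by
      by_contra d
      have := lis_pt c1 c4 (show t < y by omega)
      omega
    obtain ⟨q, b1, b2, _⟩ := sh_col g2
    exact Dec.cons (Dec.cons c2 c1 c4 (by omega) c3) b2 g3 (by omega) (by omega)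

/-- the row lengths attached to a lattice point -/
noncomputable def lab (u : ℕ → ℕ → Prop) (i j k : ℕ) : ℕ := lis (sh^[k] u) i j

theorem dec_iff (a : ℕ) : ∀ {u : ℕ → ℕ → Prop}, PP u → ∀ i j,
    Dec u j (a + 1) i 0 ↔ 0 < lab u i j a := by
  induction a with
  | zero =>
    intro u _ i j
    show _ ↔ 0 < lis u i j
    constructor
    · intro g
      obtain ⟨x, y, _, g2, g3, _, g5⟩ := g.inv
      have := lis_pt g2 g3 g5
      omega
    · intro g
      obtain ⟨x, y, h1, h2, h3, _⟩ := lis_level u 0 i j (by omega)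
      exact Dec.cons (Dec.nil _ _) h3 h1 (by omega) h2
  | succ a ih =>
    intro u h i j
    rw [dec_sh_iff h, ih h.sh]
    rfl

theorem lab_fin {u : ℕ → ℕ → Prop} (h : PP u) (i j : ℕ) : lab u i j i = 0 := by
  by_contra d
  have := ((dec_iff i h i j).2 (by omega)).le
  omega

theorem lis_local {u v : ℕ → ℕ → Prop} {i j : ℕ} (h : ∀ x y, x < i → y < j → (u x y ↔ v x y)) :
    lis u i j = lis v i j := by
  have key : ∀ (u v : ℕ → ℕ → Prop) a i j, Inc u a i j →
      (∀ x y, x < i → y < j → (u x y ↔ v x y)) → Inc v a i j := by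
    intro u v a i j g
    induction g with
    | nil => intro _; exact Inc.nil _ _
    | cons _ g1 g2 g3 ih =>
      intro h
      exact Inc.cons (ih (fun x y a b => h x y (by omega) (by omega))) ((h _ _ g2 g3).1 g1) g2 g3
  apply le_antisymm
  · exact (inc_iff v _ i j).1 (key u v _ i j ((inc_iff u _ i j).2 le_rfl) h)
  · exact (inc_iff u _ i j).1
      (key v u _ i j ((inc_iff v _ i j).2 le_rfl) (fun x y a b => (h x y a b).symm))

theorem lab_local {i j : ℕ} (k : ℕ) : ∀ {u v : ℕ → ℕ → Prop},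
    (∀ x y, x < i → y < j → (u x y ↔ v x y)) → lab u i j k = lab v i j k := by
  induction k with
  | zero => intro u v h; exact lis_local h
  | succ k ih =>
    intro u v h
    show lab (sh u) i j k = lab (sh v) i j k
    apply ih
    intro x y a b
    unfold sh
    rw [lis_local (u := u) (v := v) (i := x) (j := y + 1)
        (fun s t c d => h s t (by omega) (by omega)),
      lis_local (u := u) (v := v) (i := x + 1) (j := y)
        (fun s t c d => h s t (by omega) (by omega)),
      lis_local (u := u) (v := v) (i := x) (j := y)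
        (fun s t c d => h s t (by omega) (by omega))]

end Pool.Agent.P.MP_689636_co.BWX
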