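import Pool.Agent.P.MP_689636_co.Growth1

namespace Pool.Agent.P.MP_689636_co.BWX

/-- one box is added -/
def Cov (ρ μ : ℕ → ℕ) : Prop := ∃ k, μ k = ρ k + 1 ∧ ∀ j, j ≠ k → μ j = ρ j

/-- one box is added exactly when `b` holds -/
def Step (b : Prop) (ρ μ : ℕ → ℕ) : Prop := (b → Cov ρ μ) ∧ (¬ b → ∀ k, μ k = ρ k)

/-- weakly decreasing -/
def Anti (μ : ℕ → ℕ) : Prop := ∀ k, μ (k + 1) ≤ μ k

open Classical in
/-- the local rule -/
def Rule (x : Prop) (ρ μ ν l : ℕ → ℕ) : Prop :=
  l 0 = max (max (μ 0) (ν 0)) (ρ 0 + if x then 1 else 0) ∧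
  ∀ k, l (k + 1) = max (max (μ (k + 1)) (ν (k + 1)))
    (ρ (k + 1) + if (μ k = ρ k + 1 ∧ ν k = ρ k + 1) then 1 else 0)

theorem Step.congr {b b' : Prop} {ρ μ : ℕ → ℕ} (h : Step b ρ μ) (e : b ↔ b') : Step b' ρ μ :=
  ⟨fun g => h.1 (e.2 g), fun g => h.2 (fun a => g (e.1 a))⟩

theorem Step.bounds {b : Prop} {ρ μ : ℕ → ℕ} (h : Step b ρ μ) (k : ℕ) :
    ρ k ≤ μ k ∧ μ k ≤ ρ k + 1 := by
  by_cases c : b
  · obtain ⟨m, h1, h2⟩ := h.1 c
    by_cases d : k = m
    · subst d; omega
    · have := h2 k d; omega
  · have := h.2 c k; omega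

theorem Step.two {b : Prop} {ρ μ : ℕ → ℕ} (h : Step b ρ μ) {k m : ℕ} (h1 : μ k = ρ k + 1)
    (h2 : m ≠ k) : μ m = ρ m := by
  by_cases c : b
  · obtain ⟨t, g1, g2⟩ := h.1 c
    by_cases d : k = t
    · subst d; exact g2 m h2
    · have := g2 k d; omega
  · exact h.2 c m

theorem Rule.symm {x : Prop} {ρ μ ν l : ℕ → ℕ} (h : Rule x ρ μ ν l) : Rule x ρ ν μ l := by
  refine ⟨by rw [h.1, max_comm (μ 0)], fun k => ?_⟩
  rw [h.2 k, max_comm (μ (k + 1))]
  simp only [and_comm]

theorem Rule.eq {x x' : Prop} {ρ μ ν l l' : ℕ → ℕ} (h : Rule x ρ μ ν l) (h' : Rule x' ρ μ ν l')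
    (e : x ↔ x') : l = l' := by
  funext k
  cases k with
  | zero =>
    have e2 : x = x' := propext e
    subst e2
    rw [h.1, h'.1]
  | succ k => rw [h.2, h'.2]

theorem lab_rule (u : ℕ → ℕ → Prop) (i j : ℕ) :
    Rule (u i j) (lab u i j) (lab u i (j + 1)) (lab u (i + 1) j) (lab u (i + 1) (j + 1)) := by
  constructor
  · exact lis_succ u i j
  · intro k
    unfold lab
    rw [lis_succ, Function.iterate_succ_apply']
    congr

theorem rule_step {x p q : Prop} {ρ μ ν l : ℕ → ℕ} (h1 : Step p ρ μ) (h2 : Step q ρ ν)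
    (hx : x → ¬ p ∧ ¬ q) (h : Rule x ρ μ ν l) : Step (q ∨ x) μ l := by
  have b1 := h1.bounds
  have b2 := h2.bounds
  have r0 := h.1
  have r1 := h.2
  by_cases cx : x
  · obtain ⟨np, nq⟩ := hx cx
    have e1 := h1.2 np
    have e2 := h2.2 nq
    refine ⟨fun _ => ⟨0, ?_, ?_⟩, fun g => (g (Or.inr cx)).elim⟩
    · rw [if_pos cx] at r0
      have := e1 0; have := e2 0; omega
    · intro j hj
      obtain ⟨j, rfl⟩ : ∃ t, j = t + 1 := ⟨j - 1, by omega⟩
      have a := r1 j
      rw [if_neg (by have := e1 j; omega)] at a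
      have := e1 (j + 1); have := e2 (j + 1); omega
  · rw [if_neg cx] at r0
    by_cases cq : q
    · obtain ⟨m, g1, g2⟩ := h2.1 cq
      refine ⟨fun _ => ?_, fun g => (g (Or.inl cq)).elim⟩
      by_cases c : μ m = ρ m + 1
      · refine ⟨m + 1, ?_, ?_⟩
        · have a := r1 m
          rw [if_pos ⟨c, g1⟩] at a
          have := h1.two c (show m + 1 ≠ m by omega)
          have := g2 (m + 1) (by omega)
          omega
        · intro j hj
          cases j with
          | zero =>
            have := b1 0
            by_cases d : 0 = m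
            · subst d; omega
            · have := g2 0 d; omega
          | succ j =>
            have a := r1 j
            have hj' : j ≠ m := by omega
            rw [if_neg (by have := g2 j hj'; omega)] at a
            have := b1 (j + 1)
            by_cases d : j + 1 = m
            · subst d; omega
            · have := g2 (j + 1) d; omega
      · have key : ∀ j, l j = max (μ j) (ν j) := by
          intro j
          cases j with
          | zero => have := b1 0; omega
          | succ j =>
            have a := r1 j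
            rw [if_neg (by
              by_cases d : j = m
              · subst d; omega
              · have := g2 j d; omega)] at a
            have := b1 (j + 1); omega
        refine ⟨m, ?_, ?_⟩
        · have := key m; have := b1 m; omega
        · intro j hj
          have := key j; have := g2 j hj; have := b1 j; omega
    · have e2 := h2.2 cq
      refine ⟨fun g => (g.elim cq cx).elim, fun _ k => ?_⟩
      cases k with
      | zero => have := e2 0; have := b1 0; omega
      | succ k =>
        have a := r1 k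
        rw [if_neg (by have := e2 k; omega)] at a
        have := e2 (k + 1); have := b1 (k + 1); omega

theorem rule_anti {x : Prop} {ρ μ ν l : ℕ → ℕ} (a0 : Anti ρ) (a1 : Anti μ) (a2 : Anti ν)
    (h : Rule x ρ μ ν l) : Anti l := by
  intro k
  have lo : μ k ≤ l k ∧ ν k ≤ l k ∧ ρ k ≤ l k := by
    cases k with
    | zero => have := h.1; omega
    | succ k => have := h.2 k; omega
  have a := h.2 k
  have := a0 k; have := a1 k; have := a2 k
  split_ifs at a with c <;> omega

theorem rule_inv {x p q : Prop} {ρ μ ν l : ℕ → ℕ} (h1 : Step p ρ μ) (h2 : Step q ρ ν)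
    (hx : x → ¬ p ∧ ¬ q) (h : Rule x ρ μ ν l) :
    (x ↔ max (μ 0) (ν 0) < l 0) ∧ ∀ k, ρ k = min (μ k) (ν k) -
      if max (μ (k + 1)) (ν (k + 1)) < l (k + 1) then 1 else 0 := by
  constructor
  · have r0 := h.1
    constructor
    · intro cx
      obtain ⟨np, nq⟩ := hx cx
      rw [if_pos cx] at r0
      have := h1.2 np 0; have := h2.2 nq 0; omega
    · intro g
      by_contra cx
      rw [if_neg cx] at r0
      have := h1.bounds 0; omega
  · intro k
    have a := h.2 k
    have := h1.bounds k; have := h2.bounds k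
    have := h1.bounds (k + 1); have := h2.bounds (k + 1)
    by_cases c : μ k = ρ k + 1 ∧ ν k = ρ k + 1
    · rw [if_pos c] at a
      have := h1.two c.1 (show k + 1 ≠ k by omega)
      have := h2.two c.2 (show k + 1 ≠ k by omega)
      rw [if_pos (by omega)]
      omega
    · rw [if_neg c] at a
      rw [if_neg (by omega)]
      omega

theorem rule_surj {p q : Prop} {μ ν l : ℕ → ℕ} (a1 : Anti μ) (a2 : Anti ν) (a3 : Anti l)
    (h1 : Step q μ l) (h2 : Step p ν l) :
    ∃ (x : Prop) (ρ : ℕ → ℕ), Anti ρ ∧ Step (p ∧ ¬ x) ρ μ ∧ Step (q ∧ ¬ x) ρ ν ∧ (x → p ∧ q) ∧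
      Rule x ρ μ ν l := by
  have b1 := h1.bounds
  have b2 := h2.bounds
  by_cases cq : q
  · by_cases cp : p
    · obtain ⟨k, g1, g2⟩ := h1.1 cq
      obtain ⟨m, g3, g4⟩ := h2.1 cp
      by_cases c : k = m
      · subst c
        have e : ∀ j, ν j = μ j := by
          intro j
          by_cases d : j = k
          · subst d; omega
          · have := g2 j d; have := g4 j d; omega
        cases k with
        | zero =>
          refine ⟨True, μ, a1, ⟨fun g => (g.2 trivial).elim, fun _ _ => rfl⟩,
            ⟨fun g => (g.2 trivial).elim, fun _ => e⟩, fun _ => ⟨cp, cq⟩, ?_, fun j => ?_⟩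
          · rw [if_pos trivial]; have := e 0; omega
          · rw [if_neg (by omega)]
            have := e (j + 1); have := g2 (j + 1) (by omega); omega
        | succ k =>
          have pos : μ (k + 1) + 1 ≤ μ k := by
            have := a3 k; have := g2 k (by omega); omega
          have cov : Cov (fun j => if j = k then μ k - 1 else μ j) μ :=
            ⟨k, by simp only [if_true]; omega, fun j hj => by simp only [if_neg hj]⟩
          refine ⟨False, fun j => if j = k then μ k - 1 else μ j, ?_,
            ⟨fun _ => cov, fun g => (g ⟨cp, not_false⟩).elim⟩,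
            ⟨fun _ => (funext e : ν = μ) ▸ cov, fun g => (g ⟨cq, not_false⟩).elim⟩,
            False.elim, ?_, fun j => ?_⟩
          · intro j
            have := a1 j
            dsimp only
            split_ifs with c1 c2 c3
            · omega
            · subst c1; omega
            · subst c3; omega
            · omega
          · rw [if_neg not_false]
            have := e 0; have := g2 0 (by omega)
            dsimp only
            split_ifs with c1
            · subst c1; omega
            · omega
          · have := e j; have := e (j + 1)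
            by_cases d : j = k
            · subst d
              simp only [if_true]
              rw [if_neg (show ¬ j + 1 = j by omega), if_pos (by omega)]
              omega
            · have := g2 (j + 1) (by omega)
              simp only [if_neg d]
              rw [if_neg (show ¬ (μ j = μ j + 1 ∧ ν j = μ j + 1) by omega)]
              split_ifs with c1
              · subst c1; omega
              · omega
      · refine ⟨False, fun j => min (μ j) (ν j), ?_,
          ⟨fun _ => ⟨m, ?_, ?_⟩, fun g => (g ⟨cp, not_false⟩).elim⟩,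
          ⟨fun _ => ⟨k, ?_, ?_⟩, fun g => (g ⟨cq, not_false⟩).elim⟩, False.elim, ?_, fun j => ?_⟩
        · intro j
          have := a1 j; have := a2 j
          dsimp only
          omega
        · have := g2 m (fun e => c e.symm)
          dsimp only
          omega
        · intro j hj
          have := g4 j hj; have := b1 j
          dsimp only
          omega
        · have := g4 k c
          dsimp only
          omega
        · intro j hj
          have := g2 j hj; have := b2 j
          dsimp only
          omega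
        · rw [if_neg not_false]
          have := b1 0; have := b2 0
          dsimp only
          by_cases d : 0 = k
          · have := g4 0 (by omega); omega
          · have := g2 0 d; omega
        · dsimp only
          rw [if_neg (by omega)]
          have := b1 (j + 1); have := b2 (j + 1)
          by_cases d : j + 1 = k
          · have := g4 (j + 1) (by omega); omega
          · have := g2 (j + 1) d; omega
    · have e := h2.2 cp
      refine ⟨False, μ, a1, ⟨fun g => (cp g.1).elim, fun _ _ => rfl⟩, ?_, False.elim, ?_,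
        fun j => ?_⟩
      · rw [← (funext e : l = ν)]
        exact h1.congr (by tauto)
      · rw [if_neg not_false]; have := e 0; have := b1 0; omega
      · rw [if_neg (by omega)]; have := e (j + 1); have := b1 (j + 1); omega
  · have e := h1.2 cq
    refine ⟨False, ν, a2, ?_, ⟨fun g => (cq g.1).elim, fun _ _ => rfl⟩, False.elim, ?_,
      fun j => ?_⟩
    · rw [← (funext e : l = μ)]
      exact h2.congr (by tauto)
    · rw [if_neg not_false]; have := e 0; have := b2 0; omega
    · rw [if_neg (by omega)]; have := e (j + 1); have := b2 (j + 1); omega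

theorem lab_left (u : ℕ → ℕ → Prop) (j k : ℕ) : lab u 0 j k = 0 := lis_zero_left _ _

theorem lab_right (u : ℕ → ℕ → Prop) (i k : ℕ) : lab u i 0 k = 0 := lis_zero_right _ _

theorem walk_aux {u : ℕ → ℕ → Prop} (h : PP u) (i : ℕ)
    (ih : ∀ j, Anti (lab u i j) ∧ Step (∃ x, x < i ∧ u x j) (lab u i j) (lab u i (j + 1))) :
    ∀ j, Anti (lab u (i + 1) j) ∧ Step (∃ y, y < j ∧ u i y) (lab u i j) (lab u (i + 1) j) := by
  intro j
  induction j with
  | zero =>
    refine ⟨fun k => by rw [lab_right, lab_right], fun g => ?_, fun _ k => ?_⟩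
    · obtain ⟨y, g1, _⟩ := g; omega
    · rw [lab_right, lab_right]
  | succ j ihj =>
    refine ⟨rule_anti (ih j).1 (ih (j + 1)).1 ihj.1 (lab_rule u i j), ?_⟩
    refine (rule_step (ih j).2 ihj.2 (fun g => ⟨?_, ?_⟩) (lab_rule u i j)).congr ?_
    · rintro ⟨x, g1, g2⟩
      have := h.2 x i j g2 g; omega
    · rintro ⟨y, g1, g2⟩
      have := h.1 i y j g2 g; omega
    · constructor
      · rintro (⟨y, g1, g2⟩ | g)
        · exact ⟨y, by omega, g2⟩
        · exact ⟨j, by omega, g⟩
      · rintro ⟨y, g1, g2⟩
        by_cases c : y = j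
        · subst c; exact Or.inr g2
        · exact Or.inl ⟨y, by omega, g2⟩

theorem walk_v {u : ℕ → ℕ → Prop} (h : PP u) (i : ℕ) :
    ∀ j, Anti (lab u i j) ∧ Step (∃ x, x < i ∧ u x j) (lab u i j) (lab u i (j + 1)) := by
  induction i with
  | zero =>
    intro j
    refine ⟨fun k => by rw [lab_left, lab_left], fun g => ?_, fun _ k => ?_⟩
    · obtain ⟨y, g1, _⟩ := g; omega
    · rw [lab_left, lab_left]
  | succ i ih =>
    intro j
    have w := walk_aux h i ih j
    refine ⟨w.1, ?_⟩
    refine (rule_step w.2 (ih j).2 (fun g => ⟨?_, ?_⟩) (lab_rule u i j).symm).congr ?_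
    · rintro ⟨y, g1, g2⟩
      have := h.1 i y j g2 g; omega
    · rintro ⟨x, g1, g2⟩
      have := h.2 x i j g2 g; omega
    · constructor
      · rintro (⟨y, g1, g2⟩ | g)
        · exact ⟨y, by omega, g2⟩
        · exact ⟨i, by omega, g⟩
      · rintro ⟨y, g1, g2⟩
        by_cases c : y = i
        · subst c; exact Or.inr g2
        · exact Or.inl ⟨y, by omega, g2⟩

theorem walk_h {u : ℕ → ℕ → Prop} (h : PP u) (i j : ℕ) :
    Step (∃ y, y < j ∧ u i y) (lab u i j) (lab u (i + 1) j) :=
  (walk_aux h i (walk_v h i) j).2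

theorem lab_inv {u : ℕ → ℕ → Prop} (h : PP u) (i j : ℕ) :
    (u i j ↔ max (lab u i (j + 1) 0) (lab u (i + 1) j 0) < lab u (i + 1) (j + 1) 0) ∧
    ∀ k, lab u i j k = min (lab u i (j + 1) k) (lab u (i + 1) j k) -
      if max (lab u i (j + 1) (k + 1)) (lab u (i + 1) j (k + 1)) < lab u (i + 1) (j + 1) (k + 1)
        then 1 else 0 := by
  refine rule_inv (walk_v h i j).2 (walk_h h i j) (fun g => ⟨?_, ?_⟩) (lab_rule u i j)
  · rintro ⟨x, g1, g2⟩
    have := h.2 x i j g2 g; omega
  · rintro ⟨y, g1, g2⟩
    have := h.1 i y j g2 g; omega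

/-- conjugate partitions -/
def Conj (μ ν : ℕ → ℕ) : Prop := ∀ k t, t < μ k ↔ k < ν t

theorem Conj.symm {μ ν : ℕ → ℕ} (h : Conj μ ν) : Conj ν μ := fun k t => (h t k).symm

theorem Conj.uniq {μ μ' ν : ℕ → ℕ} (h : Conj μ ν) (h' : Conj μ' ν) : μ = μ' := by
  funext k
  have a := (h k (μ' k)).trans (h' k (μ' k)).symm
  have b := (h k (μ k)).trans (h' k (μ k)).symm
  omega

theorem Conj.anti {μ ν : ℕ → ℕ} (h : Conj μ ν) : Anti ν := by
  intro t
  by_contra d
  have a := (h (ν t) (t + 1)).2 (by omega)
  have b := (h (ν t) t).1 (by omega)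
  omega

theorem exists_conj {μ : ℕ → ℕ} (a : Anti μ) {K : ℕ} (hK : μ K = 0) : ∃ ν, Conj μ ν := by
  classical
  have ex : ∀ t, ∃ k, μ k ≤ t := fun t => ⟨K, by omega⟩
  have an : Antitone μ := antitone_nat_of_succ_le a
  refine ⟨fun t => Nat.find (ex t), fun k t => ?_⟩
  rw [Nat.lt_find_iff]
  constructor
  · intro g m hm
    have := an hm
    omega
  · intro g
    have := g k le_rfl
    omega

theorem Conj.step {b : Prop} {ρ μ ρ' μ' : ℕ → ℕ} (h1 : Conj ρ ρ') (h2 : Conj μ μ')
    (h : Step b ρ μ) : Step b ρ' μ' := by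
  constructor
  · intro g
    obtain ⟨k, g1, g2⟩ := h.1 g
    have key : ∀ t j, j < μ' t ↔ (j < ρ' t ∨ (j = k ∧ t = ρ k)) := by
      intro t j
      rw [← h2, ← h1]
      by_cases d : j = k
      · subst d; omega
      · have := g2 j d; omega
    have nk : ¬ k < ρ' (ρ k) := by rw [← h1]; omega
    refine ⟨ρ k, ?_, fun t ht => ?_⟩
    · have a := (key (ρ k) k).2 (Or.inr ⟨rfl, rfl⟩)
      have b := key (ρ k) (ρ' (ρ k))
      have c := key (ρ k) (ρ' (ρ k) + 1)
      omega
    · have b := key t (ρ' t)
      have c := key t (μ' t)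
      omega
  · intro g
    have e : μ = ρ := funext (h.2 g)
    subst e
    intro k
    rw [h2.symm.uniq h1.symm]

end Pool.Agent.P.MP_689636_co.BWX
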