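import Pool.Agent.P.MP_689636_co.Growth2

namespace Pool.Agent.P.MP_689636_co.BWX

/-- a board: a finite lower set of cells -/
def Low (B : Finset (ℕ × ℕ)) : Prop :=
  ∀ x y x' y', x ≤ x' → y ≤ y' → (x', y') ∈ B → (x, y) ∈ B

/-- boundary lattice points of a board -/
def Bd (B : Finset (ℕ × ℕ)) (i j : ℕ) : Prop :=
  (i, j) ∉ B ∧ (i = 0 ∨ j = 0 ∨ (i - 1, j - 1) ∈ B)

theorem exists_corner {B : Finset (ℕ × ℕ)} (hne : B.Nonempty) :
    ∃ i j, (i, j) ∈ B ∧ ∀ x y, (x, y) ∈ B → x + y ≤ i + j := by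
  obtain ⟨c, hc, h⟩ := Finset.exists_max_image B (fun c => c.1 + c.2) hne
  exact ⟨c.1, c.2, hc, fun x y g => h (x, y) g⟩

section Corner

variable {B : Finset (ℕ × ℕ)} {i j : ℕ}

theorem low_erase (hB : Low B) (hm : ∀ x y, (x, y) ∈ B → x + y ≤ i + j) :
    Low (B.erase (i, j)) := by
  intro x y x' y' h1 h2 h3
  rw [Finset.mem_erase] at h3 ⊢
  refine ⟨fun e => h3.1 ?_, hB x y x' y' h1 h2 h3.2⟩
  have := hm x' y' h3.2
  simp only [Prod.mk.injEq] at e ⊢
  omega

theorem bd_ne (hc : (i, j) ∈ B) (hm : ∀ x y, (x, y) ∈ B → x + y ≤ i + j) :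
    Bd B (i + 1) (j + 1) :=
  ⟨fun g => by have := hm _ _ g; omega, Or.inr (Or.inr hc)⟩

theorem bd_nw (hB : Low B) (hc : (i, j) ∈ B) (hm : ∀ x y, (x, y) ∈ B → x + y ≤ i + j) :
    Bd B i (j + 1) :=
  ⟨fun g => by have := hm _ _ g; omega,
    Or.inr (Or.inr (hB _ _ i j (by omega) (by omega) hc))⟩

theorem bd_se (hB : Low B) (hc : (i, j) ∈ B) (hm : ∀ x y, (x, y) ∈ B → x + y ≤ i + j) :
    Bd B (i + 1) j :=
  ⟨fun g => by have := hm _ _ g; omega,
    Or.inr (Or.inr (hB _ _ i j (by omega) (by omega) hc))⟩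

theorem bd_erase {x y : ℕ} (h : Bd (B.erase (i, j)) x y) (hne : ¬ (x = i ∧ y = j)) :
    Bd B x y := by
  refine ⟨fun g => h.1 (Finset.mem_erase.2 ⟨?_, g⟩), ?_⟩
  · simpa using hne
  · rcases h.2 with g | g | g
    · exact Or.inl g
    · exact Or.inr (Or.inl g)
    · exact Or.inr (Or.inr (Finset.mem_of_mem_erase g))

end Corner

theorem board_inj {u v : ℕ → ℕ → Prop} (hu : PP u) (hv : PP v) (n : ℕ) :
    ∀ B : Finset (ℕ × ℕ), B.card = n → Low B → (∀ i j, Bd B i j → lab u i j = lab v i j) →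
      ∀ x y, (x, y) ∈ B → (u x y ↔ v x y) := by
  induction n with
  | zero =>
    intro B h _ _ x y g
    rw [Finset.card_eq_zero] at h
    rw [h] at g
    exact absurd g (Finset.notMem_empty _)
  | succ n ih =>
    intro B h hB hl x y g
    obtain ⟨i, j, hc, hm⟩ := exists_corner (B := B) ⟨_, g⟩
    have e1 := hl _ _ (bd_ne hc hm)
    have e2 := hl _ _ (bd_nw hB hc hm)
    have e3 := hl _ _ (bd_se hB hc hm)
    have a := lab_inv hu i j
    have b := lab_inv hv i j
    rw [e1, e2, e3] at a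
    by_cases c : x = i ∧ y = j
    · rw [c.1, c.2, a.1, b.1]
    · refine ih (B.erase (i, j)) (by rw [Finset.card_erase_of_mem hc]; omega) (low_erase hB hm)
        ?_ x y (Finset.mem_erase.2 ⟨by simpa using c, g⟩)
      intro s t hs
      by_cases d : s = i ∧ t = j
      · rw [d.1, d.2]
        funext k
        rw [a.2 k, b.2 k]
      · exact hl s t (bd_erase hs d)

theorem board_surj (n : ℕ) : ∀ B : Finset (ℕ × ℕ), B.card = n → Low B →
    ∀ (g : ℕ → ℕ → ℕ → ℕ) (X Y : ℕ → Prop), (∀ i j, Bd B i j → Anti (g i j)) →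
      (∀ i j, Bd B i j → (i = 0 ∨ j = 0) → ∀ k, g i j k = 0) →
      (∀ i j, Bd B i j → Bd B (i + 1) j → Step (X i) (g i j) (g (i + 1) j)) →
      (∀ i j, Bd B i j → Bd B i (j + 1) → Step (Y j) (g i j) (g i (j + 1))) →
      ∃ u : ℕ → ℕ → Prop, PP u ∧ (∀ x y, u x y → (x, y) ∈ B) ∧ (∀ x, X x ↔ ∃ y, u x y) ∧
        (∀ y, Y y ↔ ∃ x, u x y) ∧ ∀ i j, Bd B i j → lab u i j = g i j := by
  induction n with
  | zero =>
    intro B h _ g X Y _ h2 h3 h4
    rw [Finset.card_eq_zero] at h
    subst h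
    have b1 : ∀ i, Bd ∅ i 0 := fun i => ⟨Finset.notMem_empty _, Or.inr (Or.inl rfl)⟩
    have b2 : ∀ j, Bd ∅ 0 j := fun j => ⟨Finset.notMem_empty _, Or.inl rfl⟩
    refine ⟨fun _ _ => False, ⟨fun _ _ _ a => a.elim, fun _ _ _ a => a.elim⟩,
      fun _ _ a => a.elim, fun x => ⟨fun a => ?_, fun ⟨_, a⟩ => a.elim⟩,
      fun y => ⟨fun a => ?_, fun ⟨_, a⟩ => a.elim⟩, fun i j a => ?_⟩
    · obtain ⟨k, c, _⟩ := (h3 x 0 (b1 x) (b1 (x + 1))).1 a
      have := h2 _ _ (b1 (x + 1)) (Or.inr rfl) k
      omega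
    · obtain ⟨k, c, _⟩ := (h4 0 y (b2 y) (b2 (y + 1))).1 a
      have := h2 _ _ (b2 (y + 1)) (Or.inl rfl) k
      omega
    · funext k
      rcases a.2 with c | c | c
      · rw [h2 i j a (Or.inl c) k, c, lab_left]
      · rw [h2 i j a (Or.inr c) k, c, lab_right]
      · exact absurd c (Finset.notMem_empty _)
  | succ n ih =>
    intro B h hB g X Y h1 h2 h3 h4
    obtain ⟨i, j, hc, hm⟩ := exists_corner (B := B) (Finset.card_pos.1 (by omega))
    have e1 := bd_ne hc hm
    have e2 := bd_nw hB hc hm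
    have e3 := bd_se hB hc hm
    obtain ⟨x, ρ, r1, r2, r3, r4, r5⟩ := rule_surj (h1 _ _ e2) (h1 _ _ e3) (h1 _ _ e1)
      (h3 _ _ e2 e1) (h4 _ _ e3 e1)
    have hB' := low_erase hB hm
    classical
    obtain ⟨u, u1, u2, u3, u4, u5⟩ := ih (B.erase (i, j))
      (by rw [Finset.card_erase_of_mem hc]; omega) hB'
      (fun s t => if s = i ∧ t = j then ρ else g s t)
      (fun s => X s ∧ ¬ (x ∧ s = i)) (fun t => Y t ∧ ¬ (x ∧ t = j))
      (by
        intro s t hs
        split_ifs with c
        · exact r1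
        · exact h1 s t (bd_erase hs c))
      (by
        intro s t hs hz k
        split_ifs with c
        · rcases hz with d | d
          · have a := h2 _ _ e2 (Or.inl (by omega)) k
            have := r2.bounds k
            omega
          · have a := h2 _ _ e3 (Or.inr (by omega)) k
            have := r3.bounds k
            omega
        · exact h2 s t (bd_erase hs c) hz k)
      (by
        intro s t hs hs'
        by_cases c : s = i ∧ t = j
        · rw [if_pos c, if_neg (by omega), c.1, c.2]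
          exact r3.congr (by tauto)
        · have d : ¬ (s + 1 = i ∧ t = j) := by
            rintro ⟨d1, d2⟩
            exact hs.1 (Finset.mem_erase.2 ⟨by simpa using c,
              hB _ _ i j (by omega) (by omega) hc⟩)
          rw [if_neg c, if_neg d]
          refine (h3 s t (bd_erase hs c) (bd_erase hs' d)).congr ⟨fun a => ⟨a, ?_⟩, fun a => a.1⟩
          rintro ⟨_, a2⟩
          have b1 : j < t := by
            by_contra b
            exact (bd_erase hs c).1 (hB _ _ i j (by omega) (by omega) hc)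
          rcases hs'.2 with b | b | b
          · omega
          · omega
          · rw [Finset.mem_erase] at b
            have b2 := hm _ _ b.2
            have b3 := b.1
            simp only [ne_eq, Prod.mk.injEq] at b3
            omega)
      (by
        intro s t hs hs'
        by_cases c : s = i ∧ t = j
        · rw [if_pos c, if_neg (by omega), c.1, c.2]
          exact r2.congr (by tauto)
        · have d : ¬ (s = i ∧ t + 1 = j) := by
            rintro ⟨d1, d2⟩
            exact hs.1 (Finset.mem_erase.2 ⟨by simpa using c,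
              hB _ _ i j (by omega) (by omega) hc⟩)
          rw [if_neg c, if_neg d]
          refine (h4 s t (bd_erase hs c) (bd_erase hs' d)).congr ⟨fun a => ⟨a, ?_⟩, fun a => a.1⟩
          rintro ⟨_, a2⟩
          have b1 : i < s := by
            by_contra b
            exact (bd_erase hs c).1 (hB _ _ i j (by omega) (by omega) hc)
          rcases hs'.2 with b | b | b
          · omega
          · omega
          · rw [Finset.mem_erase] at b
            have b2 := hm _ _ b.2
            have b3 := b.1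
            simp only [ne_eq, Prod.mk.injEq] at b3
            omega)
    have nc : x → ∀ t, ¬ u i t := fun a t b => ((u3 i).2 ⟨t, b⟩).2 ⟨a, rfl⟩
    have nr : x → ∀ s, ¬ u s j := fun a s b => ((u4 j).2 ⟨s, b⟩).2 ⟨a, rfl⟩
    have loc : ∀ s t, ¬ (i < s ∧ j < t) →
        lab (fun a b => u a b ∨ (x ∧ a = i ∧ b = j)) s t = lab u s t := by
      intro s t hst
      funext k
      apply lab_local
      intro a b c d
      exact ⟨fun e => e.elim id (fun e => by omega), Or.inl⟩
    refine ⟨fun a b => u a b ∨ (x ∧ a = i ∧ b = j), ⟨?_, ?_⟩, ?_, ?_, ?_, ?_⟩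
    · rintro s t t' (a | ⟨a1, a2, a3⟩) (b | ⟨b1, b2, b3⟩)
      · exact u1.1 s t t' a b
      · subst b2; exact (nc b1 t a).elim
      · subst a2; exact (nc a1 t' b).elim
      · omega
    · rintro s s' t (a | ⟨a1, a2, a3⟩) (b | ⟨b1, b2, b3⟩)
      · exact u1.2 s s' t a b
      · subst b3; exact (nr b1 s a).elim
      · subst a3; exact (nr a1 s' b).elim
      · omega
    · rintro s t (a | ⟨_, a2, a3⟩)
      · exact Finset.mem_of_mem_erase (u2 s t a)
      · rw [a2, a3]; exact hc
    · intro s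
      constructor
      · intro a
        by_cases c : x ∧ s = i
        · exact ⟨j, Or.inr ⟨c.1, c.2, rfl⟩⟩
        · obtain ⟨t, b⟩ := (u3 s).1 ⟨a, c⟩
          exact ⟨t, Or.inl b⟩
      · rintro ⟨t, a | ⟨a1, a2, _⟩⟩
        · exact ((u3 s).2 ⟨t, a⟩).1
        · rw [a2]; exact (r4 a1).2
    · intro t
      constructor
      · intro a
        by_cases c : x ∧ t = j
        · exact ⟨i, Or.inr ⟨c.1, rfl, c.2⟩⟩
        · obtain ⟨s, b⟩ := (u4 t).1 ⟨a, c⟩
          exact ⟨s, Or.inl b⟩
      · rintro ⟨s, a | ⟨a1, _, a3⟩⟩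
        · exact ((u4 t).2 ⟨s, a⟩).1
        · rw [a3]; exact (r4 a1).1
    · have old : ∀ s t, Bd B s t → ¬ (s = i + 1 ∧ t = j + 1) →
          lab (fun a b => u a b ∨ (x ∧ a = i ∧ b = j)) s t = g s t := by
        intro s t hs c
        have n1 : ¬ (s = i ∧ t = j) := by
          rintro ⟨a, b⟩
          exact hs.1 (by rw [a, b]; exact hc)
        have n2 : ¬ (i < s ∧ j < t) := by
          rintro ⟨a, b⟩
          rcases hs.2 with d | d | d
          · omega
          · omega
          · have := hm _ _ d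
            omega
        have n3 : Bd (B.erase (i, j)) s t := by
          refine ⟨fun d => hs.1 (Finset.mem_of_mem_erase d), ?_⟩
          by_cases z : s = 0 ∨ t = 0
          · rcases z with z | z
            · exact Or.inl z
            · exact Or.inr (Or.inl z)
          · rcases hs.2 with d | d | d
            · exact Or.inl d
            · exact Or.inr (Or.inl d)
            · refine Or.inr (Or.inr (Finset.mem_erase.2 ⟨?_, d⟩))
              simp only [ne_eq, Prod.mk.injEq]
              omega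
        rw [loc s t n2, u5 s t n3, if_neg n1]
      intro s t hs
      by_cases c : s = i + 1 ∧ t = j + 1
      · rw [c.1, c.2]
        have k1 := lab_rule (fun a b => u a b ∨ (x ∧ a = i ∧ b = j)) i j
        have n3 : Bd (B.erase (i, j)) i j := by
          refine ⟨Finset.notMem_erase _ _, ?_⟩
          by_cases z : i = 0 ∨ j = 0
          · rcases z with z | z
            · exact Or.inl z
            · exact Or.inr (Or.inl z)
          · refine Or.inr (Or.inr (Finset.mem_erase.2 ⟨?_, hB _ _ i j (by omega) (by omega) hc⟩))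
            simp only [ne_eq, Prod.mk.injEq]
            omega
        rw [old _ _ e2 (by omega), old _ _ e3 (by omega), loc i j (by omega), u5 i j n3,
          if_pos ⟨rfl, rfl⟩] at k1
        refine k1.eq r5 ⟨fun a => a.elim (fun b => ?_) (fun b => b.1), fun a => Or.inr ⟨a, rfl, rfl⟩⟩
        exact absurd (u2 i j b) (Finset.notMem_erase _ _)
      · exact old s t hs c

/-- the conjugation of fillings of a board -/
theorem board_conj {B : Finset (ℕ × ℕ)} (hB : Low B) {u : ℕ → ℕ → Prop} (hu : PP u)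
    (hin : ∀ x y, u x y → (x, y) ∈ B) :
    ∃ v : ℕ → ℕ → Prop, PP v ∧ (∀ x y, v x y → (x, y) ∈ B) ∧
      (∀ x, (∃ y, u x y) ↔ ∃ y, v x y) ∧ (∀ y, (∃ x, u x y) ↔ ∃ x, v x y) ∧
      ∀ i j, Bd B i j → Conj (lab u i j) (lab v i j) := by
  have ex : ∀ i j, ∃ ν, Conj (lab u i j) ν := fun i j =>
    exists_conj (walk_v hu i j).1 (lab_fin hu i j)
  choose g hg using ex
  obtain ⟨v, v1, v2, v3, v4, v5⟩ := board_surj B.card B rfl hB g (fun x => ∃ y, u x y)
    (fun y => ∃ x, u x y) (fun i j _ => (hg i j).anti)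
    (by
      intro i j _ hz k
      by_contra d
      have a := (hg i j 0 k).2 (by omega)
      rcases hz with c | c
      · rw [c, lab_left] at a; omega
      · rw [c, lab_right] at a; omega)
    (by
      intro i j h1 _
      refine ((hg i j).step (hg (i + 1) j) (walk_h hu i j)).congr
        ⟨fun ⟨y, _, a⟩ => ⟨y, a⟩, fun ⟨y, a⟩ => ⟨y, ?_, a⟩⟩
      by_contra d
      exact h1.1 (hB _ _ i y le_rfl (by omega) (hin i y a)))
    (by
      intro i j h1 _
      refine ((hg i j).step (hg i (j + 1)) (walk_v hu i j).2).congr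
        ⟨fun ⟨x, _, a⟩ => ⟨x, a⟩, fun ⟨x, a⟩ => ⟨x, ?_, a⟩⟩
      by_contra d
      exact h1.1 (hB _ _ x j (by omega) le_rfl (hin x j a)))
  exact ⟨v, v1, v2, v3, v4, fun i j h => by rw [v5 i j h]; exact hg i j⟩

theorem exists_bd {B : Finset (ℕ × ℕ)} {x y : ℕ} (h : (x, y) ∈ B) :
    ∃ i j, Bd B i j ∧ x < i ∧ y < j := by
  classical
  obtain ⟨i0, j0, _, hm⟩ := exists_corner (B := B) ⟨_, h⟩
  have ex : ∃ t, (x + t + 1, y + t + 1) ∉ B :=
    ⟨i0 + j0, fun g => by have := hm _ _ g; omega⟩
  refine ⟨x + Nat.find ex + 1, y + Nat.find ex + 1, ⟨Nat.find_spec ex, Or.inr (Or.inr ?_)⟩,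
    by omega, by omega⟩
  by_cases c : Nat.find ex = 0
  · rw [c]; exact h
  · have a := Nat.find_min ex (show Nat.find ex - 1 < Nat.find ex by omega)
    rw [not_not] at a
    have e1 : x + Nat.find ex + 1 - 1 = x + (Nat.find ex - 1) + 1 := by omega
    have e2 : y + Nat.find ex + 1 - 1 = y + (Nat.find ex - 1) + 1 := by omega
    rw [e1, e2]
    exact a

/-- conjugate fillings: long increasing chains correspond to long decreasing chains -/
theorem conj_chain {B : Finset (ℕ × ℕ)} {u v : ℕ → ℕ → Prop} (hv : PP v)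
    (h : ∀ i j, Bd B i j → Conj (lab u i j) (lab v i j)) (a : ℕ) :
    (∃ x y, (x, y) ∈ B ∧ Inc u (a + 1) (x + 1) (y + 1)) ↔
      ∃ x y, (x, y) ∈ B ∧ Dec v (y + 1) (a + 1) (x + 1) 0 := by
  constructor
  · rintro ⟨x, y, g1, g2⟩
    obtain ⟨i, j, b1, b2, b3⟩ := exists_bd g1
    have c1 := (inc_iff u _ _ _).1 g2
    have c2 := lis_mono u (show x + 1 ≤ i by omega) (show y + 1 ≤ j by omega)
    have c3 : a < lab u i j 0 := by
      show a < lis u i j
      omega
    have c4 := (dec_iff a hv i j).2 ((h i j b1 0 a).1 c3)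
    rcases b1.2 with d | d | d
    · omega
    · omega
    · refine ⟨i - 1, j - 1, d, ?_⟩
      rw [show i - 1 + 1 = i by omega, show j - 1 + 1 = j by omega]
      exact c4
  · rintro ⟨x, y, g1, g2⟩
    obtain ⟨i, j, b1, b2, b3⟩ := exists_bd g1
    have c1 : Dec v j (a + 1) i 0 := (g2.mono (by omega) le_rfl).mono_top (by omega)
    have c3 : a < lis u i j := (h i j b1 0 a).2 ((dec_iff a hv i j).1 c1)
    rcases b1.2 with d | d | d
    · omega
    · omega
    · refine ⟨i - 1, j - 1, d, ?_⟩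
      rw [show i - 1 + 1 = i by omega, show j - 1 + 1 = j by omega]
      exact (inc_iff u _ _ _).2 (by omega)

end Pool.Agent.P.MP_689636_co.BWX
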