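import Pool.Agent.P.MP_689636_co.Refined
import Pool.Agent.P.MP_689636_co.Growth3

namespace Pool.Agent.P.MP_689636_co.BWX

open Finset

variable {α : Type*} [Fintype α] [LinearOrder α]

/-- the points of `w` inside the board `B` -/
def fil (E : α → ℕ) (B : Finset (ℕ × ℕ)) (w : Equiv.Perm α) : ℕ → ℕ → Prop := fun i j =>
  (i, j) ∈ B ∧ ∃ x, E x = i ∧ E (w x) = j

omit [Fintype α] [LinearOrder α] in
theorem fil_pp {E : α → ℕ} (hE : Function.Injective E) (B : Finset (ℕ × ℕ)) (w : Equiv.Perm α) :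
    PP (fil E B w) := by
  constructor
  · rintro i j j' ⟨_, x, a1, a2⟩ ⟨_, x', b1, b2⟩
    have := hE (a1.trans b1.symm)
    subst this
    omega
  · rintro i i' j ⟨_, x, a1, a2⟩ ⟨_, x', b1, b2⟩
    have := w.injective (hE (a2.trans b2.symm))
    subst this
    omega

omit [LinearOrder α] in
theorem lift {r : α → α} (hrr : ∀ x, r (r x) = x) {E : α → ℕ} (hE : Function.Injective E)
    {B : Finset (ℕ × ℕ)} (hL : ∀ x y, (E x, E y) ∈ B → ¬ (E (r x), E (r y)) ∈ B)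
    {w : Equiv.Perm α} (hw : Sym r w) {u : ℕ → ℕ → Prop} (hu : PP u)
    (hin : ∀ x y, u x y → (x, y) ∈ B) (hX : ∀ x, (∃ y, fil E B w x y) ↔ ∃ y, u x y)
    (hY : ∀ y, (∃ x, fil E B w x y) ↔ ∃ x, u x y) :
    ∃ v : Equiv.Perm α, Sym r v ∧ Rel r (fun x y => (E x, E y) ∈ B) w v ∧ fil E B v = u := by
  classical
  have rinj : Function.Injective r := fun a b hab => by rw [← hrr a, hab, hrr]
  have ex : ∀ x, ∃ z, (E x, E (w x)) ∈ B → (E z, E (w z)) ∈ B ∧ u (E x) (E (w z)) := by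
    intro x
    by_cases c : (E x, E (w x)) ∈ B
    · obtain ⟨y, a⟩ := (hX (E x)).1 ⟨E (w x), c, x, rfl, rfl⟩
      obtain ⟨i, b1, z, b2, b3⟩ := (hY y).2 ⟨E x, a⟩
      exact ⟨z, fun _ => ⟨by rw [b2, b3]; exact b1, by rw [b3]; exact a⟩⟩
    · exact ⟨x, fun a => (c a).elim⟩
  choose φ hφ using ex
  have dis : ∀ x, (E x, E (w x)) ∈ B → ¬ (E (r x), E (w (r x))) ∈ B := by
    intro x a
    rw [hw]
    exact hL _ _ a
  have φinj : ∀ x x', (E x, E (w x)) ∈ B → (E x', E (w x')) ∈ B → φ x = φ x' → x = x' := by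
    intro x x' a b e
    have c := (hφ x a).2
    rw [e] at c
    exact hE (hu.2 _ _ _ c (hφ x' b).2)
  let π : α → α := fun x => if (E x, E (w x)) ∈ B then φ x
    else if (E (r x), E (w (r x))) ∈ B then r (φ (r x)) else x
  have p1 : ∀ x, (E x, E (w x)) ∈ B → π x = φ x := fun x a => if_pos a
  have p2 : ∀ x, (E (r x), E (w (r x))) ∈ B → π x = r (φ (r x)) := by
    intro x a
    have b : ¬ (E x, E (w x)) ∈ B := fun b => dis x b a
    simp only [π]
    rw [if_neg b, if_pos a]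
  have p3 : ∀ x, ¬ (E x, E (w x)) ∈ B → ¬ (E (r x), E (w (r x))) ∈ B → π x = x := by
    intro x a b
    simp only [π]
    rw [if_neg a, if_neg b]
  have q1 : ∀ x, (E (π x), E (w (π x))) ∈ B ↔ (E x, E (w x)) ∈ B := by
    intro x
    by_cases a : (E x, E (w x)) ∈ B
    · rw [p1 x a]; exact ⟨fun _ => a, fun _ => (hφ x a).1⟩
    · by_cases b : (E (r x), E (w (r x))) ∈ B
      · rw [p2 x b]; exact ⟨fun c => (dis _ (hφ _ b).1 c).elim, fun c => (a c).elim⟩
      · rw [p3 x a b]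
  have psym : ∀ x, π (r x) = r (π x) := by
    intro x
    by_cases a : (E x, E (w x)) ∈ B
    · rw [p1 x a, p2 (r x) (by rw [hrr]; exact a), hrr]
    · by_cases b : (E (r x), E (w (r x))) ∈ B
      · rw [p2 x b, p1 _ b, hrr]
      · rw [p3 x a b, p3 (r x) b (by rw [hrr]; exact a)]
  have pinj : Function.Injective π := by
    intro x x' e
    have k1 : (E x, E (w x)) ∈ B ↔ (E x', E (w x')) ∈ B := by rw [← q1 x, ← q1 x', e]
    have k2 : (E (r x), E (w (r x))) ∈ B ↔ (E (r x'), E (w (r x'))) ∈ B := by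
      rw [← q1 (r x), ← q1 (r x'), psym, psym, e]
    by_cases a : (E x, E (w x)) ∈ B
    · rw [p1 x a, p1 x' (k1.1 a)] at e
      exact φinj x x' a (k1.1 a) e
    · by_cases b : (E (r x), E (w (r x))) ∈ B
      · rw [p2 x b, p2 x' (k2.1 b)] at e
        exact rinj (φinj _ _ b (k2.1 b) (rinj e))
      · rwa [p3 x a b, p3 x' (fun c => a (k1.2 c)) (fun c => b (k2.2 c))] at e
  let v : Equiv.Perm α := w * Equiv.ofBijective π (Finite.injective_iff_bijective.1 pinj)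
  have hv : ∀ x, v x = w (π x) := fun x => rfl
  have q2 : ∀ x, (E x, E (w x)) ∈ B ↔ (E x, E (v x)) ∈ B := by
    intro x
    rw [hv]
    by_cases a : (E x, E (w x)) ∈ B
    · rw [p1 x a]; exact ⟨fun _ => hin _ _ (hφ x a).2, fun _ => a⟩
    · by_cases b : (E (r x), E (w (r x))) ∈ B
      · rw [p2 x b, hw]
        refine ⟨fun c => (a c).elim, fun c => ?_⟩
        have d := hL _ _ (hin _ _ (hφ _ b).2)
        rw [hrr] at d
        exact (d c).elim
      · rw [p3 x a b]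
  refine ⟨v, fun x => by rw [hv, hv, psym, hw], ⟨q2, fun y => ?_, fun x a b => ?_⟩, ?_⟩
  · obtain ⟨x, rfl⟩ := v.surjective y
    dsimp only
    rw [Equiv.symm_apply_apply, ← q2 x, hv, Equiv.symm_apply_apply]
    exact q1 x
  · rw [hv, p3 x a b]
  · funext i j
    apply propext
    constructor
    · rintro ⟨a, x, rfl, rfl⟩
      have b := (q2 x).2 a
      rw [hv, p1 x b]
      exact (hφ x b).2
    · intro a
      obtain ⟨y, b, x, rfl, rfl⟩ := (hX i).2 ⟨j, a⟩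
      refine ⟨hin _ _ a, x, rfl, ?_⟩
      rw [hv, p1 x b]
      exact hu.1 _ _ _ (hφ x b).2 a

omit [LinearOrder α] in
open Classical in
theorem shape_le {r : α → α} (hrr : ∀ x, r (r x) = x) {E : α → ℕ} (hE : Function.Injective E)
    {B : Finset (ℕ × ℕ)} (hB : Low B)
    (hL : ∀ x y, (E x, E y) ∈ B → ¬ (E (r x), E (r y)) ∈ B) (Z : Finset (Equiv.Perm α))
    (hZ : ∀ w ∈ Z, Sym r w)
    (hZ' : ∀ w ∈ Z, ∀ v, Sym r v → Rel r (fun x y => (E x, E y) ∈ B) w v → v ∈ Z)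
    (A1 A2 : Equiv.Perm α → Prop)
    (hA : ∀ w v, (∀ i j, Bd B i j → Conj (lab (fil E B w) i j) (lab (fil E B v) i j)) →
      A1 w → A2 v) : (Z.filter A1).card ≤ (Z.filter A2).card := by
  apply Finset.card_le_card_of_forall_subsingleton (fun w v =>
    Rel r (fun x y => (E x, E y) ∈ B) w v ∧
      ∀ i j, Bd B i j → Conj (lab (fil E B w) i j) (lab (fil E B v) i j))
  · intro w hw
    rw [mem_filter] at hw
    obtain ⟨u, u1, u2, u3, u4, u5⟩ := board_conj hB (fil_pp hE B w) (fun _ _ a => a.1)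
    obtain ⟨v, v1, v2, v3⟩ := lift hrr hE hL (hZ w hw.1) u1 u2 u3 u4
    rw [← v3] at u5
    exact ⟨v, by rw [mem_filter]; exact ⟨hZ' w hw.1 v v1 v2, hA w v u5 hw.2⟩, v2, u5⟩
  · intro v _ a ha b hb
    simp only [mem_filter, Set.mem_ofPred_eq] at ha hb
    apply eq_of_rel hrr (hZ a ha.1.1) (hZ b hb.1.1) (ha.2.1.trans hb.2.1.symm)
    intro y hy
    have k := board_inj (fil_pp hE B a) (fil_pp hE B b) B.card B rfl hB
      (fun i j h => (ha.2.2 i j h).uniq (hb.2.2 i j h)) _ _ hy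
    obtain ⟨_, x, c1, c2⟩ := k.1 ⟨hy, a.symm y, rfl, by rw [Equiv.apply_symm_apply]⟩
    rw [← hE c1, Equiv.eq_symm_apply]
    exact hE c2

/-- increasing (`b` true) or decreasing (`b` false) -/
def Dir {β : Type*} [LT β] (b : Prop) (y y' : β) : Prop := (b ∧ y < y') ∨ (¬ b ∧ y' < y)

/-- a monotone block of `a` points south-west of `(i, j)` -/
def Blk (E : α → ℕ) (b : Prop) (a : ℕ) (w : Equiv.Perm α) (i j : ℕ) : Prop :=
  ∃ x : ℕ → α, (∀ s t, s < t → t < a → x s < x t ∧ Dir b (w (x s)) (w (x t))) ∧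
    ∀ t, t < a → E (x t) < i ∧ E (w (x t)) < j

omit [Fintype α] in
theorem Blk.mono {E : α → ℕ} {b : Prop} {a : ℕ} {w : Equiv.Perm α} {i j i' j' : ℕ}
    (h : Blk E b a w i j) (h1 : i ≤ i') (h2 : j ≤ j') : Blk E b a w i' j' := by
  obtain ⟨x, g1, g2⟩ := h
  exact ⟨x, g1, fun t ht => by have := g2 t ht; omega⟩

omit [Fintype α] in
theorem inc_blk {E : α → ℕ} (hE : StrictMono E) {B : Finset (ℕ × ℕ)} {w : Equiv.Perm α} (d : α)
    {a i j : ℕ} (h : Inc (fil E B w) a i j) : Blk E True a w i j := by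
  induction h with
  | nil => exact ⟨fun _ => d, fun _ _ _ g => by omega, fun _ g => by omega⟩
  | @cons a x y i j _ g1 g2 g3 ih =>
    obtain ⟨_, z, rfl, rfl⟩ := g1
    obtain ⟨c, c1, c2⟩ := ih
    refine ⟨fun t => if t = a then z else c t, fun s t hs ht => ?_, fun t ht => ?_⟩
    · dsimp only
      rw [if_neg (show s ≠ a by omega)]
      split_ifs with e
      · have := c2 s (by omega)
        exact ⟨hE.lt_iff_lt.1 this.1, Or.inl ⟨trivial, hE.lt_iff_lt.1 this.2⟩⟩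
      · exact c1 s t hs (by omega)
    · dsimp only
      split_ifs with e
      · exact ⟨g2, g3⟩
      · have := c2 t (by omega); omega

omit [Fintype α] in
theorem dec_blk {E : α → ℕ} (hE : StrictMono E) {B : Finset (ℕ × ℕ)} {w : Equiv.Perm α} (d : α)
    {a i j lo : ℕ} (h : Dec (fil E B w) j a i lo) :
    ∃ x : ℕ → α, (∀ s t, s < t → t < a → x s < x t ∧ Dir False (w (x s)) (w (x t))) ∧
      ∀ t, t < a → E (x t) < i ∧ E (w (x t)) < j ∧ lo ≤ E (w (x t)) := by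
  induction h with
  | nil => exact ⟨fun _ => d, fun _ _ _ g => by omega, fun _ g => by omega⟩
  | @cons a x y i lo _ g1 g2 g3 g4 ih =>
    obtain ⟨_, z, rfl, rfl⟩ := g1
    obtain ⟨c, c1, c2⟩ := ih
    refine ⟨fun t => if t = a then z else c t, fun s t hs ht => ?_, fun t ht => ?_⟩
    · dsimp only
      rw [if_neg (show s ≠ a by omega)]
      split_ifs with e
      · have := c2 s (by omega)
        exact ⟨hE.lt_iff_lt.1 this.1, Or.inr ⟨not_false, hE.lt_iff_lt.1 (by omega)⟩⟩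
      · exact c1 s t hs (by omega)
    · dsimp only
      split_ifs with e
      · exact ⟨g2, g4, g3⟩
      · have := c2 t (by omega); omega

omit [Fintype α] in
theorem blk_inc {E : α → ℕ} (hE : StrictMono E) {B : Finset (ℕ × ℕ)} {w : Equiv.Perm α}
    (a : ℕ) : ∀ i j, (∀ x y, x < i → y < j → (x, y) ∈ B) → Blk E True a w i j →
      Inc (fil E B w) a i j := by
  induction a with
  | zero => intro i j _ _; exact Inc.nil _ _
  | succ a ih =>
    rintro i j hB ⟨x, g1, g2⟩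
    have c := g2 a (by omega)
    refine Inc.cons (ih (E (x a)) (E (w (x a))) (fun s t h1 h2 => hB s t (by omega) (by omega))
      ⟨x, fun s t h1 h2 => g1 s t h1 (by omega), fun t ht => ?_⟩)
      ⟨hB _ _ c.1 c.2, x a, rfl, rfl⟩ c.1 c.2
    obtain ⟨d1, d2 | d2⟩ := g1 t a ht (by omega)
    · exact ⟨hE d1, hE d2.2⟩
    · exact (d2.1 trivial).elim

omit [Fintype α] in
theorem blk_dec {E : α → ℕ} (hE : StrictMono E) {B : Finset (ℕ × ℕ)} {w : Equiv.Perm α}
    (j a : ℕ) (x : ℕ → α) : ∀ i lo, (∀ s t, s < i → t < j → (s, t) ∈ B) →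
      (∀ s t, s < t → t < a → x s < x t ∧ Dir False (w (x s)) (w (x t))) →
      (∀ t, t < a → E (x t) < i ∧ E (w (x t)) < j ∧ lo ≤ E (w (x t))) →
      Dec (fil E B w) j a i lo := by
  induction a with
  | zero => intro i lo _ _ _; exact Dec.nil _ _
  | succ a ih =>
    intro i lo hB g1 g2
    have c := g2 a (by omega)
    refine Dec.cons (ih (E (x a)) (E (w (x a)) + 1) (fun s t h1 h2 => hB s t (by omega) h2)
      (fun s t h1 h2 => g1 s t h1 (by omega)) (fun t ht => ?_))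
      ⟨hB _ _ c.1 c.2.1, x a, rfl, rfl⟩ c.1 c.2.2 c.2.1
    obtain ⟨d1, d2 | d2⟩ := g1 t a ht (by omega)
    · exact d2.1.elim
    · exact ⟨hE d1, (g2 t (by omega)).2.1, hE d2.2⟩

omit [Fintype α] in
theorem blk_corner {E : α → ℕ} {b : Prop} {a : ℕ} {w : Equiv.Perm α} {i j : ℕ}
    (h : Blk E b (a + 1) w i j) : 0 < i ∧ 0 < j := by
  obtain ⟨x, _, g⟩ := h
  have := g 0 (by omega)
  omega

omit [Fintype α] in
theorem inc_iff_blk {E : α → ℕ} (hE : StrictMono E) {B : Finset (ℕ × ℕ)} (hB : Low B)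
    (w : Equiv.Perm α) (a : ℕ) :
    (∃ x y, (x, y) ∈ B ∧ Inc (fil E B w) (a + 1) (x + 1) (y + 1)) ↔
      ∃ x y, (x, y) ∈ B ∧ Blk E True (a + 1) w (x + 1) (y + 1) := by
  constructor
  · rintro ⟨x, y, g1, g2⟩
    have g3 := g2
    cases g3 with
    | cons _ c _ _ =>
      obtain ⟨_, d, _⟩ := c
      exact ⟨x, y, g1, inc_blk hE d g2⟩
  · rintro ⟨x, y, g1, g2⟩
    exact ⟨x, y, g1, blk_inc hE _ _ _ (fun s t h1 h2 => hB s t x y (by omega) (by omega) g1) g2⟩

omit [Fintype α] in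
theorem dec_iff_blk {E : α → ℕ} (hE : StrictMono E) {B : Finset (ℕ × ℕ)} (hB : Low B)
    (w : Equiv.Perm α) (a : ℕ) :
    (∃ x y, (x, y) ∈ B ∧ Dec (fil E B w) (y + 1) (a + 1) (x + 1) 0) ↔
      ∃ x y, (x, y) ∈ B ∧ Blk E False (a + 1) w (x + 1) (y + 1) := by
  constructor
  · rintro ⟨x, y, g1, g2⟩
    obtain ⟨_, _, _, ⟨_, d, _⟩, _⟩ := g2.inv
    obtain ⟨c, c1, c2⟩ := dec_blk hE d g2
    exact ⟨x, y, g1, c, c1, fun t ht => ⟨(c2 t ht).1, (c2 t ht).2.1⟩⟩
  · rintro ⟨x, y, g1, c, c1, c2⟩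
    exact ⟨x, y, g1, blk_dec hE _ _ c _ _ (fun s t h1 h2 => hB s t x y (by omega) (by omega) g1)
      c1 (fun t ht => ⟨(c2 t ht).1, (c2 t ht).2, Nat.zero_le _⟩)⟩

open Classical in
theorem shape_eq {r : α → α} (hrr : ∀ x, r (r x) = x) {E : α → ℕ} (hE : StrictMono E)
    {B : Finset (ℕ × ℕ)} (hB : Low B)
    (hL : ∀ x y, (E x, E y) ∈ B → ¬ (E (r x), E (r y)) ∈ B) (Z : Finset (Equiv.Perm α))
    (hZ : ∀ w ∈ Z, Sym r w)
    (hZ' : ∀ w ∈ Z, ∀ v, Sym r v → Rel r (fun x y => (E x, E y) ∈ B) w v → v ∈ Z) (a : ℕ) :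
    (Z.filter (fun w => ¬ ∃ x y, (x, y) ∈ B ∧ Blk E True (a + 1) w (x + 1) (y + 1))).card =
    (Z.filter (fun w => ¬ ∃ x y, (x, y) ∈ B ∧ Blk E False (a + 1) w (x + 1) (y + 1))).card := by
  apply le_antisymm
  · refine Eq.trans_le (by congr) ((shape_le hrr hE.injective hB hL Z hZ hZ' _ _ ?_).trans_eq
      (by congr))
    intro w v h g
    rw [← dec_iff_blk hE hB, ← conj_chain (fil_pp hE.injective B v) h, inc_iff_blk hE hB]
    exact g
  · refine Eq.trans_le (by congr) ((shape_le hrr hE.injective hB hL Z hZ hZ' _ _ ?_).trans_eq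
      (by congr))
    intro w v h g
    rw [← inc_iff_blk hE hB, conj_chain (fil_pp hE.injective B w) (fun i j c => (h i j c).symm),
      dec_iff_blk hE hB]
    exact g

end Pool.Agent.P.MP_689636_co.BWX
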