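import Pool.Agent.P.MP_689636_co.Core
import Pool.Agent.P.MP_689636_co.Defs

namespace Pool.Agent.P.MP_689636_co

open Finset

section Mid

variable {α : Type*} [Fintype α] [LinearOrder α]

/-- a 12 pattern strictly south-west of the cell `c` -/
def A12 (w : Equiv.Perm α) (c : α × α) : Prop :=
  ∃ x x', x < x' ∧ x' < c.1 ∧ w x < w x' ∧ w x' < c.2

/-- a 21 pattern strictly south-west of the cell `c` -/
def A21 (w : Equiv.Perm α) (c : α × α) : Prop :=
  ∃ x x', x < x' ∧ x' < c.1 ∧ w x' < w x ∧ w x < c.2

open Classical in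
/-- the middle points -/
noncomputable def Mid (r : α → α) (A : Equiv.Perm α → α × α → Prop) (w : Equiv.Perm α) :
    Finset (α × α) :=
  Finset.univ.filter (fun c => w c.1 = c.2 ∧ A w c ∧ A w (r c.1, r c.2))

theorem exists_min_below (T : Finset (α × α)) (t : α × α) (ht : t ∈ T) :
    ∃ s ∈ T, (∀ u ∈ T, ¬ (u.1 < s.1 ∧ u.2 < s.2)) ∧ s.1 ≤ t.1 ∧ s.2 ≤ t.2 := by
  obtain ⟨a, b⟩ := t
  induction a using WellFoundedLT.induction generalizing b with
  | ind a ih =>
    by_cases h : ∀ u ∈ T, ¬ (u.1 < a ∧ u.2 < b)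
    · exact ⟨(a, b), ht, h, le_rfl, le_rfl⟩
    · push Not at h
      obtain ⟨⟨u1, u2⟩, hu, h1, h2⟩ := h
      obtain ⟨s, hs, h3, h4, h5⟩ := ih u1 h1 u2 hu
      exact ⟨s, hs, h3, h4.trans h1.le, h5.trans h2.le⟩

open Classical in
theorem claim1 {r : α → α} (hrr : ∀ x, r (r x) = x) (hr : StrictAnti r) (T : Finset (α × α)) :
    ((Finset.univ.filter (Sym r)).filter (fun w => T ⊆ Mid r A12 w)).card =
    ((Finset.univ.filter (Sym r)).filter (fun w => T ⊆ Mid r A21 w)).card := by
  let T' : Finset (α × α) := T ∪ T.image (fun c => (r c.1, r c.2))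
  have hT' : ∀ t ∈ T', (r t.1, r t.2) ∈ T' := by
    intro t ht
    simp only [T', mem_union, mem_image] at ht ⊢
    rcases ht with ht | ⟨u, hu, rfl⟩
    · exact Or.inr ⟨t, ht, rfl⟩
    · left; simpa [hrr] using hu
  let Tm : Finset (α × α) := T'.filter (fun s => ∀ u ∈ T', ¬ (u.1 < s.1 ∧ u.2 < s.2))
  let Z : Finset (Equiv.Perm α) := Finset.univ.filter (fun w => Sym r w ∧ ∀ c ∈ T', w c.1 = c.2)
  have red : ∀ A : Equiv.Perm α → α × α → Prop,
      (∀ w s t, s.1 ≤ t.1 → s.2 ≤ t.2 → A w s → A w t) →
      (Finset.univ.filter (Sym r)).filter (fun w => T ⊆ Mid r A w) =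
        Z.filter (fun w => Tm.filter (fun s => ¬ A w s) = ∅) := by
    intro A hA
    ext w
    simp only [Z, mem_filter, mem_univ, true_and, Finset.filter_eq_empty_iff, not_not]
    constructor
    · rintro ⟨hw, hsub⟩
      have h1 : ∀ c ∈ T', w c.1 = c.2 ∧ A w c := by
        intro c hc
        simp only [T', mem_union, mem_image] at hc
        rcases hc with hc | ⟨u, hu, rfl⟩
        · have := hsub hc
          simp only [Mid, mem_filter, mem_univ, true_and] at this
          exact ⟨this.1, this.2.1⟩
        · have := hsub hu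
          simp only [Mid, mem_filter, mem_univ, true_and] at this
          exact ⟨by rw [hw, this.1], this.2.2⟩
      exact ⟨⟨hw, fun c hc => (h1 c hc).1⟩, fun s hs => (h1 s (mem_filter.1 hs).1).2⟩
    · rintro ⟨⟨hw, h1⟩, h2⟩
      have h3 : ∀ c ∈ T', A w c := by
        intro c hc
        obtain ⟨s, hs, h4, h5, h6⟩ := exists_min_below T' c hc
        exact hA w s c h5 h6 (h2 (mem_filter.2 ⟨hs, h4⟩))
      refine ⟨hw, fun c hc => ?_⟩
      have hc' : c ∈ T' := mem_union_left _ hc
      simp only [Mid, mem_filter, mem_univ, true_and]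
      exact ⟨h1 c hc', h3 c hc', h3 _ (hT' c hc')⟩
  rw [red A12, red A21]
  · refine Eq.trans (by congr) (Eq.trans (ie_pred Z (fun w => Tm.filter (fun s => ¬ A12 w s))
      (fun w => Tm.filter (fun s => ¬ A21 w s)) ?_ (fun U => U = ∅)) (by congr))
    intro S
    by_cases hS : S ⊆ Tm
    · let L : α → α → Prop := fun x y => ∃ s ∈ S, x < s.1 ∧ y < s.2
      have hdown : ∀ x y x' y', x ≤ x' → y ≤ y' → L x' y' → L x y := by
        rintro x y x' y' h1 h2 ⟨s, hs, h3, h4⟩
        exact ⟨s, hs, h1.trans_lt h3, h2.trans_lt h4⟩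
      have hnot : ∀ t ∈ T', ¬ L t.1 t.2 := by
        rintro t ht ⟨s, hs, h3, h4⟩
        exact (mem_filter.1 (hS hs)).2 t ht ⟨h3, h4⟩
      have hL : ∀ x y, L x y → ¬ L (r x) (r y) := by
        rintro x y ⟨s, hs, h3, h4⟩ ⟨s', hs', h5, h6⟩
        have a1 : r s'.1 < x := by have := hr h5; rwa [hrr] at this
        have a2 : r s'.2 < y := by have := hr h6; rwa [hrr] at this
        exact (mem_filter.1 (hS hs)).2 _ (hT' s' (mem_filter.1 (hS hs')).1)
          ⟨a1.trans h3, a2.trans h4⟩
      have e1 : Z.filter (fun w => S ⊆ Tm.filter (fun s => ¬ A12 w s)) = Z.filter (Av12 L) := by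
        apply Finset.filter_congr
        intro w _
        constructor
        · rintro h x x' h1 h2 ⟨s, hs, h3, h4⟩
          exact (mem_filter.1 (h hs)).2 ⟨x, x', h1, h3, h2, h4⟩
        · intro h s hs
          refine mem_filter.2 ⟨hS hs, ?_⟩
          rintro ⟨x, x', h1, h3, h2, h4⟩
          exact h x x' h1 h2 ⟨s, hs, h3, h4⟩
      have e2 : Z.filter (fun w => S ⊆ Tm.filter (fun s => ¬ A21 w s)) = Z.filter (Av21 L) := by
        apply Finset.filter_congr
        intro w _
        constructor
        · rintro h x x' h1 h2 ⟨s, hs, h3, h4⟩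
          exact (mem_filter.1 (h hs)).2 ⟨x, x', h1, h3, h2, h4⟩
        · intro h s hs
          refine mem_filter.2 ⟨hS hs, ?_⟩
          rintro ⟨x, x', h1, h3, h2, h4⟩
          exact h x x' h1 h2 ⟨s, hs, h3, h4⟩
      rw [e1, e2]
      have := shape_count hrr hr hdown hL Z (fun w hw => (mem_filter.1 hw).2.1) (by
        intro w hw v hv hrel
        simp only [Z, mem_filter, mem_univ, true_and] at hw ⊢
        refine ⟨hv, fun c hc => ?_⟩
        rw [← hrel.2.2 c.1, hw.2 c hc]
        · rw [hw.2 c hc]; exact hnot c hc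
        · rw [hw.1, hw.2 c hc]; exact hnot _ (hT' c hc))
      convert this
    · have e : ∀ A : Equiv.Perm α → α × α → Prop,
          Z.filter (fun w => S ⊆ Tm.filter (fun s => ¬ A w s)) = ∅ := by
        intro A
        rw [Finset.filter_eq_empty_iff]
        intro w _ h
        exact hS (h.trans (Finset.filter_subset _ _))
      rw [e, e]
  · rintro w s t h1 h2 ⟨x, x', a, b, c, d⟩
    exact ⟨x, x', a, b.trans_le h1, c, d.trans_le h2⟩
  · rintro w s t h1 h2 ⟨x, x', a, b, c, d⟩
    exact ⟨x, x', a, b.trans_le h1, c, d.trans_le h2⟩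

/-- an increasing chain of `m + 1` cells -/
def Chain (m : ℕ) (T : Finset (α × α)) : Prop :=
  ∃ c : Fin (m + 1) → α × α, (∀ i, c i ∈ T) ∧ StrictMono (fun i => (c i).1) ∧
    StrictMono (fun i => (c i).2)

def GContains {k : ℕ} (w : Equiv.Perm α) (p : Fin k → ℕ) : Prop :=
  ∃ a : Fin k → α, StrictMono a ∧ ∀ r s : Fin k, w (a r) < w (a s) ↔ p r < p s

omit [Fintype α] in
theorem gcontains_of {k : ℕ} (w : Equiv.Perm α) (p : Fin k → ℕ) (hp : Function.Injective p)
    (a : Fin k → α) (ha : StrictMono a) (h : ∀ r s, p r < p s → w (a r) < w (a s)) :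
    GContains w p := by
  refine ⟨a, ha, fun r s => ⟨fun h1 => ?_, h r s⟩⟩
  rcases lt_trichotomy (p r) (p s) with c | c | c
  · exact c
  · rw [hp c] at h1; exact absurd h1 (lt_irrefl _)
  · exact absurd (h s r c) (not_lt.2 h1.le)

/-- glue two points in front of and two points behind a chain -/
def glue {m : ℕ} (x x' : α) (c : Fin (m + 1) → α) (z z' : α) : Fin (m + 5) → α := fun i =>
  if (i : ℕ) = 0 then x else if (i : ℕ) = 1 then x'
  else if h : (i : ℕ) < m + 3 then c ⟨(i : ℕ) - 2, by omega⟩
  else if (i : ℕ) = m + 3 then z else z'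

omit [Fintype α] in
theorem glue_mono {m : ℕ} {x x' : α} {c : Fin (m + 1) → α} {z z' : α} (h1 : x < x')
    (h2 : x' < c 0) (h3 : StrictMono c) (h4 : c (Fin.last m) < z) (h5 : z < z') :
    StrictMono (glue x x' c z z') := by
  rw [Fin.strictMono_iff_lt_succ]
  intro i
  simp only [glue, Fin.val_castSucc, Fin.val_succ]
  have hi := i.2
  by_cases a0 : (i : ℕ) = 0
  · simp [a0, h1]
  by_cases a1 : (i : ℕ) = 1
  · simp only [a1]
    simpa using h2
  by_cases a2 : (i : ℕ) < m + 2
  · rw [if_neg a0, if_neg a1, dif_pos (by omega), if_neg (by omega), if_neg (by omega),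
      dif_pos (by omega)]
    apply h3
    simp only [Fin.lt_def]
    omega
  by_cases a3 : (i : ℕ) = m + 2
  · rw [if_neg a0, if_neg a1, dif_pos (by omega), if_neg (by omega), if_neg (by omega),
      dif_neg (by omega), if_pos (by omega)]
    convert h4
    simp only [Fin.val_last]
    omega
  · rw [if_neg a0, if_neg a1, dif_neg (by omega), if_pos (by omega), if_neg (by omega),
      if_neg (by omega), dif_neg (by omega), if_neg (by omega)]
    exact h5

theorem contains_iota {r : α → α} (hrr : ∀ x, r (r x) = x) (hr : StrictAnti r)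
    {w : Equiv.Perm α} (hw : Sym r w) (m : ℕ) :
    GContains w (iota (m + 5)) ↔ Chain m (Mid r A12 w) := by
  constructor
  · rintro ⟨a, ha, h⟩
    refine ⟨fun i => (a ⟨i + 2, by omega⟩, w (a ⟨i + 2, by omega⟩)), ?_, ?_, ?_⟩
    · intro i
      simp only [Mid, mem_filter, mem_univ, true_and]
      refine ⟨⟨a ⟨0, by omega⟩, a ⟨1, by omega⟩, ha ?_, ha ?_, (h _ _).2 ?_, (h _ _).2 ?_⟩,
        ⟨r (a ⟨m + 4, by omega⟩), r (a ⟨m + 3, by omega⟩), hr (ha ?_), hr (ha ?_), ?_, ?_⟩⟩
      · simp [Fin.lt_def]
      · simp [Fin.lt_def]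
      · simp [iota]
      · simp [iota]
      · simp [Fin.lt_def]
      · have := i.2; simp only [Fin.lt_def]; omega
      · rw [hw, hw]; apply hr; rw [h]; simp [iota]
      · rw [hw]; apply hr; rw [h]; have := i.2; simp only [iota]; omega
    · intro i j hij
      apply ha
      simp only [Fin.lt_def] at hij ⊢
      omega
    · intro i j hij
      simp only
      rw [h]
      simp only [Fin.lt_def, iota] at hij ⊢
      omega
  · rintro ⟨c, hc, h1, h2⟩
    have hc' : ∀ i, w (c i).1 = (c i).2 ∧ A12 w (c i) ∧ A12 w (r (c i).1, r (c i).2) := by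
      intro i
      simpa [Mid] using hc i
    obtain ⟨x, x', a1, a2, a3, a4⟩ := (hc' 0).2.1
    obtain ⟨z, z', b1, b2, b3, b4⟩ := (hc' (Fin.last m)).2.2
    have g1 : StrictMono (glue x x' (fun i => (c i).1) (r z') (r z)) :=
      glue_mono a1 a2 h1 (by have := hr b2; rwa [hrr] at this) (hr b1)
    have g2 : StrictMono (glue (w x) (w x') (fun i => (c i).2) (r (w z')) (r (w z))) :=
      glue_mono a3 a4 h2 (by have := hr b4; rwa [hrr] at this) (hr b3)
    have g3 : ∀ i, w (glue x x' (fun i => (c i).1) (r z') (r z) i) =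
        glue (w x) (w x') (fun i => (c i).2) (r (w z')) (r (w z)) i := by
      intro i
      simp only [glue]
      split_ifs
      · rfl
      · rfl
      · exact (hc' _).1
      · exact hw _
      · exact hw _
    refine gcontains_of w _ ?_ _ g1 ?_
    · intro i j hij
      simp only [iota] at hij
      exact Fin.ext (by omega)
    · intro i j hij
      rw [g3, g3]
      apply g2
      simp only [iota] at hij
      simp only [Fin.lt_def]
      omega

/-- the index map realising the pattern `tau` -/
def tidx (m : ℕ) (i : Fin (m + 5)) : Fin (m + 5) :=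
  ⟨tau (m + 5) i - 1, by have := i.2; simp only [tau]; split_ifs <;> omega⟩

theorem tau_pos (m : ℕ) (i : Fin (m + 5)) : 0 < tau (m + 5) i := by
  have := i.2; simp only [tau]; split_ifs <;> omega

theorem contains_tau {r : α → α} (hrr : ∀ x, r (r x) = x) (hr : StrictAnti r)
    {w : Equiv.Perm α} (hw : Sym r w) (m : ℕ) :
    GContains w (tau (m + 5)) ↔ Chain m (Mid r A21 w) := by
  constructor
  · rintro ⟨a, ha, h⟩
    refine ⟨fun i => (a ⟨i + 2, by omega⟩, w (a ⟨i + 2, by omega⟩)), ?_, ?_, ?_⟩
    · intro i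
      have hi := i.2
      simp only [Mid, mem_filter, mem_univ, true_and]
      refine ⟨⟨a ⟨0, by omega⟩, a ⟨1, by omega⟩, ha ?_, ha ?_, (h _ _).2 ?_, (h _ _).2 ?_⟩,
        ⟨r (a ⟨m + 4, by omega⟩), r (a ⟨m + 3, by omega⟩), hr (ha ?_), hr (ha ?_), ?_, ?_⟩⟩
      · simp [Fin.lt_def]
      · simp [Fin.lt_def]
      · simp [tau]
      · simp only [tau]; split_ifs <;> first | omega | contradiction
      · simp [Fin.lt_def]
      · simp only [Fin.lt_def]; omega
      · rw [hw, hw]; apply hr; rw [h]; simp only [tau]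
        split_ifs <;> first | omega | contradiction
      · rw [hw]; apply hr; rw [h]; simp only [tau]
        split_ifs <;> first | omega | contradiction
    · intro i j hij
      apply ha
      simp only [Fin.lt_def] at hij ⊢
      omega
    · intro i j hij
      simp only
      rw [h]
      have hi := i.2
      have hj := j.2
      simp only [Fin.lt_def, tau] at hij ⊢
      split_ifs <;> first | omega | contradiction
  · rintro ⟨c, hc, h1, h2⟩
    have hc' : ∀ i, w (c i).1 = (c i).2 ∧ A21 w (c i) ∧ A21 w (r (c i).1, r (c i).2) := by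
      intro i
      simpa [Mid] using hc i
    obtain ⟨x, x', a1, a2, a3, a4⟩ := (hc' 0).2.1
    obtain ⟨z, z', b1, b2, b3, b4⟩ := (hc' (Fin.last m)).2.2
    have g1 : StrictMono (glue x x' (fun i => (c i).1) (r z') (r z)) :=
      glue_mono a1 a2 h1 (by have := hr b2; rwa [hrr] at this) (hr b1)
    have g2 : StrictMono (glue (w x') (w x) (fun i => (c i).2) (r (w z)) (r (w z'))) :=
      glue_mono a3 a4 h2 (by have := hr b4; rwa [hrr] at this) (hr b3)
    have g3 : ∀ i, w (glue x x' (fun i => (c i).1) (r z') (r z) i) =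
        glue (w x') (w x) (fun i => (c i).2) (r (w z)) (r (w z')) (tidx m i) := by
      intro i
      have hi := i.2
      by_cases a0 : (i : ℕ) = 0
      · simp [glue, tidx, tau, a0]
      by_cases a1 : (i : ℕ) = 1
      · simp [glue, tidx, tau, a1]
      by_cases a2 : (i : ℕ) < m + 3
      · have e : tidx m i = i := by
          apply Fin.ext
          simp only [tidx, tau]
          split_ifs <;> omega
        rw [e]
        simp only [glue]
        rw [if_neg a0, if_neg a1, dif_pos a2, if_neg a0, if_neg a1, dif_pos a2]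
        exact (hc' _).1
      by_cases a3 : (i : ℕ) = m + 3
      · have e : (tidx m i : ℕ) = m + 4 := by
          simp only [tidx, tau]
          split_ifs <;> omega
        simp only [glue]
        rw [if_neg a0, if_neg a1, dif_neg a2, if_pos a3, if_neg (by omega), if_neg (by omega),
          dif_neg (by omega), if_neg (by omega)]
        exact hw _
      · have e : (tidx m i : ℕ) = m + 3 := by
          simp only [tidx, tau]
          split_ifs <;> omega
        simp only [glue]
        rw [if_neg a0, if_neg a1, dif_neg a2, if_neg a3, if_neg (by omega), if_neg (by omega),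
          dif_neg (by omega), if_pos e]
        exact hw _
    refine gcontains_of w _ ?_ _ g1 ?_
    · intro i j hij
      have hi := i.2
      have hj := j.2
      simp only [tau] at hij
      apply Fin.ext
      split_ifs at hij <;> omega
    · intro i j hij
      rw [g3, g3]
      apply g2
      have := tau_pos m i
      have := tau_pos m j
      simp only [Fin.lt_def, tidx]
      omega

open Classical in
theorem general {r : α → α} (hrr : ∀ x, r (r x) = x) (hr : StrictAnti r) (m : ℕ) :
    ((Finset.univ.filter (Sym r)).filter (fun w => ¬ GContains w (iota (m + 5)))).card =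
    ((Finset.univ.filter (Sym r)).filter (fun w => ¬ GContains w (tau (m + 5)))).card := by
  have e1 : (Finset.univ.filter (Sym r)).filter (fun w => ¬ GContains w (iota (m + 5))) =
      (Finset.univ.filter (Sym r)).filter (fun w => ¬ Chain m (Mid r A12 w)) := by
    apply Finset.filter_congr
    intro w hw
    rw [contains_iota hrr hr (mem_filter.1 hw).2]
  have e2 : (Finset.univ.filter (Sym r)).filter (fun w => ¬ GContains w (tau (m + 5))) =
      (Finset.univ.filter (Sym r)).filter (fun w => ¬ Chain m (Mid r A21 w)) := by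
    apply Finset.filter_congr
    intro w hw
    rw [contains_tau hrr hr (mem_filter.1 hw).2]
  rw [e1, e2]
  have := ie_pred (Finset.univ.filter (Sym r)) (Mid r A12) (Mid r A21)
    (fun T => by convert claim1 hrr hr T) (fun T => ¬ Chain m T)
  convert this

end Mid

/-- negation on `[±n]` -/
def negPM (n : ℕ) (i : PM n) : PM n :=
  ⟨-(i : ℤ), by
    have := i.2
    simp only [mem_erase, mem_Icc] at this ⊢
    omega⟩

theorem isSigned_iff {n : ℕ} (w : Equiv.Perm (PM n)) : IsSigned w ↔ Sym (negPM n) w := by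
  constructor
  · intro h x
    apply Subtype.ext
    exact h x (negPM n x) rfl
  · intro h i j hij
    have : j = negPM n i := Subtype.ext hij
    rw [this, h]
    rfl

theorem wilf_equiv (k : ℕ) (hk : 5 ≤ k) (n : ℕ) :
    {w : Equiv.Perm (PM n) | IsSigned w ∧ ¬ Contains w (iota k)}.ncard =
      {w : Equiv.Perm (PM n) | IsSigned w ∧ ¬ Contains w (tau k)}.ncard := by
  classical
  obtain ⟨m, rfl⟩ : ∃ m, k = m + 5 := ⟨k - 5, by omega⟩
  have hrr : ∀ x, negPM n (negPM n x) = x := fun x => Subtype.ext (by simp [negPM])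
  have hr : StrictAnti (negPM n) := by
    intro a b hab
    have : (a : ℤ) < b := hab
    show -(b : ℤ) < -(a : ℤ)
    omega
  have := general hrr hr m
  have e : ∀ p : Fin (m + 5) → ℕ, {w : Equiv.Perm (PM n) | IsSigned w ∧ ¬ Contains w p} =
      ↑((Finset.univ.filter (Sym (negPM n))).filter (fun w => ¬ GContains w p)) := by
    intro p
    ext w
    simp only [Set.mem_ofPred_eq, coe_filter, mem_filter, mem_univ, true_and, isSigned_iff]
    rfl
  rw [e, e, Set.ncard_coe_finset, Set.ncard_coe_finset]
  exact Eq.trans (by congr) (this.trans (by congr))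

end Pool.Agent.P.MP_689636_co
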