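import Pool.Agent.P.MP_689636_co.Main

namespace Pool.Agent.P.MP_689636_co

open Finset

section Ref

variable {α : Type*} [Fintype α] [LinearOrder α]

/-- a property of symmetric permutations kept by every rearrangement inside a shape -/
def Stable (r : α → α) (Q : Equiv.Perm α → Prop) : Prop :=
  ∀ L : α → α → Prop, (∀ x y x' y', x ≤ x' → y ≤ y' → L x' y' → L x y) →
    (∀ x y, L x y → ¬ L (r x) (r y)) →
    ∀ w v : Equiv.Perm α, Sym r w → Sym r v → Rel r L w v → Q w → Q v

open Classical in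
theorem claimQ {r : α → α} (hrr : ∀ x, r (r x) = x) (hr : StrictAnti r)
    (Q : Equiv.Perm α → Prop) (hQ : Stable r Q) (T : Finset (α × α)) :
    ((Finset.univ.filter (fun w => Sym r w ∧ Q w)).filter (fun w => T ⊆ Mid r A12 w)).card =
    ((Finset.univ.filter (fun w => Sym r w ∧ Q w)).filter (fun w => T ⊆ Mid r A21 w)).card := by
  let T' : Finset (α × α) := T ∪ T.image (fun c => (r c.1, r c.2))
  have hT' : ∀ t ∈ T', (r t.1, r t.2) ∈ T' := by
    intro t ht
    simp only [T', mem_union, mem_image] at ht ⊢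
    rcases ht with ht | ⟨u, hu, rfl⟩
    · exact Or.inr ⟨t, ht, rfl⟩
    · left; simpa [hrr] using hu
  let Tm : Finset (α × α) := T'.filter (fun s => ∀ u ∈ T', ¬ (u.1 < s.1 ∧ u.2 < s.2))
  let Z : Finset (Equiv.Perm α) :=
    Finset.univ.filter (fun w => (Sym r w ∧ Q w) ∧ ∀ c ∈ T', w c.1 = c.2)
  have red : ∀ A : Equiv.Perm α → α × α → Prop,
      (∀ w s t, s.1 ≤ t.1 → s.2 ≤ t.2 → A w s → A w t) →
      (Finset.univ.filter (fun w => Sym r w ∧ Q w)).filter (fun w => T ⊆ Mid r A w) =
        Z.filter (fun w => Tm.filter (fun s => ¬ A w s) = ∅) := by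
    intro A hA
    ext w
    simp only [Z, mem_filter, mem_univ, true_and, Finset.filter_eq_empty_iff, not_not]
    constructor
    · rintro ⟨hw, hsub⟩
      have h1 : ∀ c ∈ T', w c.1 = c.2 ∧ A w c := by
        intro c hc
        simp only [T', mem_union, mem_image] at hc
        rcases hc with hc | ⟨u, hu, rfl⟩
        · have := hsub hc
          simp only [Mid, mem_filter, mem_univ, true_and] at this
          exact ⟨this.1, this.2.1⟩
        · have := hsub hu
          simp only [Mid, mem_filter, mem_univ, true_and] at this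
          exact ⟨by rw [hw.1, this.1], this.2.2⟩
      exact ⟨⟨hw, fun c hc => (h1 c hc).1⟩, fun s hs => (h1 s (mem_filter.1 hs).1).2⟩
    · rintro ⟨⟨hw, h1⟩, h2⟩
      have h3 : ∀ c ∈ T', A w c := by
        intro c hc
        obtain ⟨s, hs, h4, h5, h6⟩ := exists_min_below T' c hc
        exact hA w s c h5 h6 (h2 (mem_filter.2 ⟨hs, h4⟩))
      refine ⟨hw, fun c hc => ?_⟩
      have hc' : c ∈ T' := mem_union_left _ hc
      simp only [Mid, mem_filter, mem_univ, true_and]
      exact ⟨h1 c hc', h3 c hc', h3 _ (hT' c hc')⟩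
  rw [red A12, red A21]
  · refine Eq.trans (by congr) (Eq.trans (ie_pred Z (fun w => Tm.filter (fun s => ¬ A12 w s))
      (fun w => Tm.filter (fun s => ¬ A21 w s)) ?_ (fun U => U = ∅)) (by congr))
    intro S
    by_cases hS : S ⊆ Tm
    · let L : α → α → Prop := fun x y => ∃ s ∈ S, x < s.1 ∧ y < s.2
      have hdown : ∀ x y x' y', x ≤ x' → y ≤ y' → L x' y' → L x y := by
        rintro x y x' y' h1 h2 ⟨s, hs, h3, h4⟩
        exact ⟨s, hs, h1.trans_lt h3, h2.trans_lt h4⟩
      have hnot : ∀ t ∈ T', ¬ L t.1 t.2 := by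
        rintro t ht ⟨s, hs, h3, h4⟩
        exact (mem_filter.1 (hS hs)).2 t ht ⟨h3, h4⟩
      have hL : ∀ x y, L x y → ¬ L (r x) (r y) := by
        rintro x y ⟨s, hs, h3, h4⟩ ⟨s', hs', h5, h6⟩
        have a1 : r s'.1 < x := by have := hr h5; rwa [hrr] at this
        have a2 : r s'.2 < y := by have := hr h6; rwa [hrr] at this
        exact (mem_filter.1 (hS hs)).2 _ (hT' s' (mem_filter.1 (hS hs')).1)
          ⟨a1.trans h3, a2.trans h4⟩
      have e1 : Z.filter (fun w => S ⊆ Tm.filter (fun s => ¬ A12 w s)) = Z.filter (Av12 L) := by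
        apply Finset.filter_congr
        intro w _
        constructor
        · rintro h x x' h1 h2 ⟨s, hs, h3, h4⟩
          exact (mem_filter.1 (h hs)).2 ⟨x, x', h1, h3, h2, h4⟩
        · intro h s hs
          refine mem_filter.2 ⟨hS hs, ?_⟩
          rintro ⟨x, x', h1, h3, h2, h4⟩
          exact h x x' h1 h2 ⟨s, hs, h3, h4⟩
      have e2 : Z.filter (fun w => S ⊆ Tm.filter (fun s => ¬ A21 w s)) = Z.filter (Av21 L) := by
        apply Finset.filter_congr
        intro w _
        constructor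
        · rintro h x x' h1 h2 ⟨s, hs, h3, h4⟩
          exact (mem_filter.1 (h hs)).2 ⟨x, x', h1, h3, h2, h4⟩
        · intro h s hs
          refine mem_filter.2 ⟨hS hs, ?_⟩
          rintro ⟨x, x', h1, h3, h2, h4⟩
          exact h x x' h1 h2 ⟨s, hs, h3, h4⟩
      rw [e1, e2]
      have := shape_count hrr hr hdown hL Z (fun w hw => (mem_filter.1 hw).2.1.1) (by
        intro w hw v hv hrel
        simp only [Z, mem_filter, mem_univ, true_and] at hw ⊢
        refine ⟨⟨hv, hQ L hdown hL w v hw.1.1 hv hrel hw.1.2⟩, fun c hc => ?_⟩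
        rw [← hrel.2.2 c.1, hw.2 c hc]
        · rw [hw.2 c hc]; exact hnot c hc
        · rw [hw.1.1, hw.2 c hc]; exact hnot _ (hT' c hc))
      exact Eq.trans (by congr) (this.trans (by congr))
    · have e : ∀ A : Equiv.Perm α → α × α → Prop,
          Z.filter (fun w => S ⊆ Tm.filter (fun s => ¬ A w s)) = ∅ := by
        intro A
        rw [Finset.filter_eq_empty_iff]
        intro w _ h
        exact hS (h.trans (Finset.filter_subset _ _))
      rw [e, e]
  · rintro w s t h1 h2 ⟨x, x', a, b, c, d⟩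
    exact ⟨x, x', a, b.trans_le h1, c, d.trans_le h2⟩
  · rintro w s t h1 h2 ⟨x, x', a, b, c, d⟩
    exact ⟨x, x', a, b.trans_le h1, c, d.trans_le h2⟩

open Classical in
theorem generalQ {r : α → α} (hrr : ∀ x, r (r x) = x) (hr : StrictAnti r)
    (Q : Equiv.Perm α → Prop) (hQ : Stable r Q) (m : ℕ) :
    ((Finset.univ.filter (fun w => Sym r w ∧ Q w)).filter
      (fun w => ¬ GContains w (iota (m + 5)))).card =
    ((Finset.univ.filter (fun w => Sym r w ∧ Q w)).filter
      (fun w => ¬ GContains w (tau (m + 5)))).card := by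
  have e1 : (Finset.univ.filter (fun w => Sym r w ∧ Q w)).filter
      (fun w => ¬ GContains w (iota (m + 5))) =
      (Finset.univ.filter (fun w => Sym r w ∧ Q w)).filter
        (fun w => ¬ Chain m (Mid r A12 w)) := by
    apply Finset.filter_congr
    intro w hw
    rw [contains_iota hrr hr (mem_filter.1 hw).2.1]
  have e2 : (Finset.univ.filter (fun w => Sym r w ∧ Q w)).filter
      (fun w => ¬ GContains w (tau (m + 5))) =
      (Finset.univ.filter (fun w => Sym r w ∧ Q w)).filter
        (fun w => ¬ Chain m (Mid r A21 w)) := by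
    apply Finset.filter_congr
    intro w hw
    rw [contains_tau hrr hr (mem_filter.1 hw).2.1]
  rw [e1, e2]
  have := ie_pred (Finset.univ.filter (fun w => Sym r w ∧ Q w)) (Mid r A12) (Mid r A21)
    (fun T => Eq.trans (by congr) ((claimQ hrr hr Q hQ T).trans (by congr)))
    (fun T => ¬ Chain m T)
  exact Eq.trans (by congr) (this.trans (by congr))

/-- the points in the south-west quadrant -/
def negSet (r : α → α) (w : Equiv.Perm α) : Set α := {x | x < r x ∧ w x < r (w x)}

theorem negSet_card {r : α → α} {L : α → α → Prop}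
    (hdown : ∀ x y x' y', x ≤ x' → y ≤ y' → L x' y' → L x y)
    (hL : ∀ x y, L x y → ¬ L (r x) (r y)) {w : Equiv.Perm α} (hw : Sym r w) :
    (negSet r w).ncard + {x | L x (w x)}.ncard =
      {x | L x (w x) ∧ x < r x}.ncard + {y | L (w.symm y) y ∧ y < r y}.ncard +
        {x | x < r x ∧ w x < r (w x) ∧ ¬ L x (w x) ∧ ¬ L (r x) (w (r x))}.ncard := by
  have e1 : {y | L (w.symm y) y ∧ y < r y}.ncard = {x | L x (w x) ∧ w x < r (w x)}.ncard := by
    have : {y | L (w.symm y) y ∧ y < r y} = w '' {x | L x (w x) ∧ w x < r (w x)} := by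
      ext y
      constructor
      · intro h
        exact ⟨w.symm y, by simpa using h, by simp⟩
      · rintro ⟨x, hx, rfl⟩
        simpa using hx
    rw [this, Set.ncard_image_of_injective _ w.injective]
  have e2 := Set.ncard_union_add_ncard_inter {x | L x (w x) ∧ x < r x}
    {x | L x (w x) ∧ w x < r (w x)}
  have e3 : {x | L x (w x) ∧ x < r x} ∪ {x | L x (w x) ∧ w x < r (w x)} = {x | L x (w x)} := by
    ext x
    simp only [Set.mem_union, Set.mem_ofPred_eq]
    constructor
    · rintro (h | h) <;> exact h.1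
    · intro h
      by_cases a : x < r x
      · exact Or.inl ⟨h, a⟩
      · by_cases b : w x < r (w x)
        · exact Or.inr ⟨h, b⟩
        · exact absurd (hdown _ _ _ _ (not_lt.1 a) (not_lt.1 b) h) (hL _ _ h)
  have e4 : negSet r w = ({x | L x (w x) ∧ x < r x} ∩ {x | L x (w x) ∧ w x < r (w x)}) ∪
      {x | x < r x ∧ w x < r (w x) ∧ ¬ L x (w x) ∧ ¬ L (r x) (w (r x))} := by
    ext x
    simp only [negSet, Set.mem_union, Set.mem_inter_iff, Set.mem_ofPred_eq]
    constructor
    · rintro ⟨a, b⟩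
      by_cases h : L x (w x)
      · exact Or.inl ⟨⟨h, a⟩, h, b⟩
      · refine Or.inr ⟨a, b, h, fun h2 => h ?_⟩
        rw [hw] at h2
        exact hdown _ _ _ _ a.le b.le h2
    · rintro (⟨⟨_, a⟩, _, b⟩ | ⟨a, b, _⟩) <;> exact ⟨a, b⟩
  have e5 : (negSet r w).ncard =
      ({x | L x (w x) ∧ x < r x} ∩ {x | L x (w x) ∧ w x < r (w x)}).ncard +
      {x | x < r x ∧ w x < r (w x) ∧ ¬ L x (w x) ∧ ¬ L (r x) (w (r x))}.ncard := by
    rw [e4]
    refine Set.ncard_union_eq ?_ (Set.toFinite _) (Set.toFinite _)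
    rw [Set.disjoint_left]
    rintro x ⟨⟨h, _⟩, _⟩ ⟨_, _, h2, _⟩
    exact h2 h
  rw [e3] at e2
  omega

theorem stable_neg (r : α → α) (J : Set ℕ) : Stable r (fun w => (negSet r w).ncard ∈ J) := by
  intro L hdown hL w v hw hv hrel hJ
  have a := negSet_card hdown hL hw
  have b := negSet_card hdown hL hv
  have e1 : {x | L x (w x)} = {x | L x (v x)} := by
    ext x; exact hrel.1 x
  have e2 : {x | L x (w x) ∧ x < r x} = {x | L x (v x) ∧ x < r x} := by
    ext x; simp only [Set.mem_ofPred_eq, hrel.1 x]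
  have e3 : {y | L (w.symm y) y ∧ y < r y} = {y | L (v.symm y) y ∧ y < r y} := by
    ext y; simp only [Set.mem_ofPred_eq, hrel.2.1 y]
  have e4 : {x | x < r x ∧ w x < r (w x) ∧ ¬ L x (w x) ∧ ¬ L (r x) (w (r x))} =
      {x | x < r x ∧ v x < r (v x) ∧ ¬ L x (v x) ∧ ¬ L (r x) (v (r x))} := by
    ext x
    simp only [Set.mem_ofPred_eq]
    constructor
    · rintro ⟨h1, h2, h3, h4⟩
      have := hrel.2.2 x h3 h4
      exact ⟨h1, this ▸ h2, fun h => h3 ((hrel.1 x).2 h), fun h => h4 ((hrel.1 (r x)).2 h)⟩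
    · rintro ⟨h1, h2, h3, h4⟩
      have h5 : ¬ L x (w x) := fun h => h3 ((hrel.1 x).1 h)
      have h6 : ¬ L (r x) (w (r x)) := fun h => h4 ((hrel.1 (r x)).1 h)
      have := hrel.2.2 x h5 h6
      exact ⟨h1, this ▸ h2, h5, h6⟩
  rw [e1, e2, e3, e4] at a
  have : (negSet r v).ncard = (negSet r w).ncard := by omega
  show (negSet r v).ncard ∈ J
  rw [this]
  exact hJ

end Ref

theorem negSet_pos {n : ℕ} {w : Equiv.Perm (PM n)} (hw : Sym (negPM n) w) :
    (negSet (negPM n) w).ncard = {i : PM n | 0 < (i : ℤ) ∧ 0 < (w i : ℤ)}.ncard := by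
  have hrr : ∀ x, negPM n (negPM n x) = x := fun x => Subtype.ext (by simp [negPM])
  have hinj : Function.Injective (negPM n) := fun a b h => by rw [← hrr a, h, hrr]
  have hlt : ∀ x : PM n, x < negPM n x ↔ (x : ℤ) < 0 := by
    intro x
    show (x : ℤ) < -(x : ℤ) ↔ _
    omega
  have : negSet (negPM n) w = negPM n '' {i : PM n | 0 < (i : ℤ) ∧ 0 < (w i : ℤ)} := by
    ext x
    simp only [negSet, Set.mem_ofPred_eq, Set.mem_image, hlt]
    constructor
    · rintro ⟨a, b⟩
      refine ⟨negPM n x, ⟨?_, ?_⟩, hrr x⟩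
      · show 0 < -(x : ℤ)
        omega
      · rw [hw]
        show 0 < -(w x : ℤ)
        omega
    · rintro ⟨i, ⟨a, b⟩, rfl⟩
      constructor
      · show -(i : ℤ) < 0
        omega
      · rw [hw]
        show -(w i : ℤ) < 0
        omega
  rw [this, Set.ncard_image_of_injective _ hinj]

theorem wilf_refined (k : ℕ) (hk : 5 ≤ k) (n : ℕ) (J : Set ℕ) :
    {w : Equiv.Perm (PM n) | IsSigned w ∧ ¬ Contains w (iota k) ∧
        {i : PM n | 0 < (i : ℤ) ∧ 0 < (w i : ℤ)}.ncard ∈ J}.ncard =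
      {w : Equiv.Perm (PM n) | IsSigned w ∧ ¬ Contains w (tau k) ∧
        {i : PM n | 0 < (i : ℤ) ∧ 0 < (w i : ℤ)}.ncard ∈ J}.ncard := by
  classical
  obtain ⟨m, rfl⟩ : ∃ m, k = m + 5 := ⟨k - 5, by omega⟩
  have hrr : ∀ x, negPM n (negPM n x) = x := fun x => Subtype.ext (by simp [negPM])
  have hr : StrictAnti (negPM n) := by
    intro a b hab
    have : (a : ℤ) < b := hab
    show -(b : ℤ) < -(a : ℤ)
    omega
  have := generalQ hrr hr _ (stable_neg (negPM n) J) m
  have e : ∀ p : Fin (m + 5) → ℕ, {w : Equiv.Perm (PM n) | IsSigned w ∧ ¬ Contains w p ∧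
        {i : PM n | 0 < (i : ℤ) ∧ 0 < (w i : ℤ)}.ncard ∈ J} =
      ↑((Finset.univ.filter (fun w => Sym (negPM n) w ∧
        (negSet (negPM n) w).ncard ∈ J)).filter (fun w => ¬ GContains w p)) := by
    intro p
    ext w
    simp only [Set.mem_ofPred_eq, coe_filter, mem_filter, mem_univ, true_and, isSigned_iff]
    constructor
    · rintro ⟨a, b, c⟩
      exact ⟨⟨a, by rw [negSet_pos a]; exact c⟩, b⟩
    · rintro ⟨⟨a, c⟩, b⟩
      exact ⟨a, b, by rw [← negSet_pos a]; exact c⟩
  rw [e, e, Set.ncard_coe_finset, Set.ncard_coe_finset]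
  exact Eq.trans (by congr) (this.trans (by congr))

end Pool.Agent.P.MP_689636_co
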