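import Pool.Agent.P.MP_689636_co.Lift
import Pool.Agent.P.MP_689636_co.FlipDefs

namespace Pool.Agent.P.MP_689636_co.BWX

open Finset

section Gen

variable {α : Type*} [Fintype α] [LinearOrder α]

open Classical in
/-- the markers with a block south-west of them and a block north-east of them -/
noncomputable def MidG (E : α → ℕ) (D : ℕ) (b : Prop) (a : ℕ) (w : Equiv.Perm α) :
    Finset (Fin (D + 1) × Fin (D + 1)) :=
  Finset.univ.filter (fun c => (∀ x, E x = c.1 → E (w x) = c.2) ∧ Blk E b a w c.1 c.2 ∧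
    Blk E b a w (D - c.1) (D - c.2))

theorem rev_val {D : ℕ} (t : Fin (D + 1)) : (t.rev : ℕ) = D - t := by
  rw [Fin.val_rev]; omega

open Classical in
theorem claimG {r : α → α} (hrr : ∀ x, r (r x) = x) {E : α → ℕ} (hE : StrictMono E) {D : ℕ}
    (hD : ∀ x, E (r x) + E x = D) (Q : Equiv.Perm α → Prop) (hQ : Stable r Q) (a : ℕ)
    (T : Finset (Fin (D + 1) × Fin (D + 1))) :
    ((Finset.univ.filter (fun w => Sym r w ∧ Q w)).filter
      (fun w => T ⊆ MidG E D True (a + 1) w)).card =
    ((Finset.univ.filter (fun w => Sym r w ∧ Q w)).filter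
      (fun w => T ⊆ MidG E D False (a + 1) w)).card := by
  let T' : Finset (Fin (D + 1) × Fin (D + 1)) := T ∪ T.image (fun c => (c.1.rev, c.2.rev))
  have hT' : ∀ t ∈ T', (t.1.rev, t.2.rev) ∈ T' := by
    intro t ht
    simp only [T', mem_union, mem_image] at ht ⊢
    rcases ht with ht | ⟨u, hu, rfl⟩
    · exact Or.inr ⟨t, ht, rfl⟩
    · left; simpa using hu
  let Tm : Finset (Fin (D + 1) × Fin (D + 1)) :=
    T'.filter (fun s => ∀ u ∈ T', ¬ (u.1 < s.1 ∧ u.2 < s.2))
  let Z : Finset (Equiv.Perm α) :=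
    Finset.univ.filter (fun w => (Sym r w ∧ Q w) ∧ ∀ c ∈ T', ∀ x, E x = c.1 → E (w x) = c.2)
  have red : ∀ b : Prop,
      (Finset.univ.filter (fun w => Sym r w ∧ Q w)).filter
        (fun w => T ⊆ MidG E D b (a + 1) w) =
        Z.filter (fun w => Tm.filter (fun s => ¬ Blk E b (a + 1) w s.1 s.2) = ∅) := by
    intro b
    ext w
    simp only [Z, mem_filter, mem_univ, true_and, Finset.filter_eq_empty_iff, not_not]
    constructor
    · rintro ⟨hw, hsub⟩
      have h1 : ∀ c ∈ T', (∀ x, E x = c.1 → E (w x) = c.2) ∧ Blk E b (a + 1) w c.1 c.2 := by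
        intro c hc
        simp only [T', mem_union, mem_image] at hc
        rcases hc with hc | ⟨u, hu, rfl⟩
        · have := hsub hc
          simp only [MidG, mem_filter, mem_univ, true_and] at this
          exact ⟨this.1, this.2.1⟩
        · have := hsub hu
          simp only [MidG, mem_filter, mem_univ, true_and] at this
          simp only [rev_val]
          refine ⟨fun x hx => ?_, this.2.2⟩
          have a1 := hD x
          have a2 := u.1.2
          have a3 := this.1 (r x) (by omega)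
          rw [hw.1] at a3
          have a4 := hD (w x)
          omega
      exact ⟨⟨hw, fun c hc => (h1 c hc).1⟩, fun s hs => (h1 s (mem_filter.1 hs).1).2⟩
    · rintro ⟨⟨hw, h1⟩, h2⟩
      have h3 : ∀ c ∈ T', Blk E b (a + 1) w c.1 c.2 := by
        intro c hc
        obtain ⟨s, hs, h4, h5, h6⟩ := exists_min_below T' c hc
        exact (h2 (mem_filter.2 ⟨hs, h4⟩)).mono h5 h6
      refine ⟨hw, fun c hc => ?_⟩
      have hc' : c ∈ T' := mem_union_left _ hc
      simp only [MidG, mem_filter, mem_univ, true_and]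
      have h4 := h3 _ (hT' c hc')
      simp only [rev_val] at h4
      exact ⟨h1 c hc', h3 c hc', h4⟩
  rw [red True, red False]
  refine Eq.trans (by congr) (Eq.trans (ie_pred Z
    (fun w => Tm.filter (fun s => ¬ Blk E True (a + 1) w s.1 s.2))
    (fun w => Tm.filter (fun s => ¬ Blk E False (a + 1) w s.1 s.2)) ?_ (fun U => U = ∅))
    (by congr))
  intro S
  by_cases hS : S ⊆ Tm
  · let B : Finset (ℕ × ℕ) := (Finset.range (D + 1) ×ˢ Finset.range (D + 1)).filter
      (fun c => ∃ s ∈ S, c.1 < (s.1 : ℕ) ∧ c.2 < (s.2 : ℕ))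
    have mB : ∀ x y, (x, y) ∈ B ↔ ∃ s ∈ S, x < (s.1 : ℕ) ∧ y < (s.2 : ℕ) := by
      intro x y
      simp only [B, mem_filter, mem_product, mem_range]
      refine ⟨fun h => h.2, fun h => ⟨?_, h⟩⟩
      obtain ⟨s, _, h1, h2⟩ := h
      have := s.1.2
      have := s.2.2
      omega
    have hB : Low B := by
      intro x y x' y' h1 h2 h3
      rw [mB] at h3 ⊢
      obtain ⟨s, hs, h4, h5⟩ := h3
      exact ⟨s, hs, by omega, by omega⟩
    have hnot : ∀ t ∈ T', ((t.1 : ℕ), (t.2 : ℕ)) ∉ B := by
      intro t ht h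
      obtain ⟨s, hs, h3, h4⟩ := (mB _ _).1 h
      exact (mem_filter.1 (hS hs)).2 t ht ⟨h3, h4⟩
    have hL : ∀ x y, (E x, E y) ∈ B → ¬ (E (r x), E (r y)) ∈ B := by
      intro x y h h'
      obtain ⟨s, hs, h3, h4⟩ := (mB _ _).1 h
      obtain ⟨s', hs', h5, h6⟩ := (mB _ _).1 h'
      have a1 := hD x
      have a2 := hD y
      refine (mem_filter.1 (hS hs)).2 _ (hT' s' (mem_filter.1 (hS hs')).1) ⟨?_, ?_⟩
      · rw [Fin.lt_def, rev_val]; omega
      · rw [Fin.lt_def, rev_val]; omega
    have e : ∀ b : Prop, Z.filter (fun w => S ⊆ Tm.filter (fun s => ¬ Blk E b (a + 1) w s.1 s.2)) =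
        Z.filter (fun w => ¬ ∃ x y, (x, y) ∈ B ∧ Blk E b (a + 1) w (x + 1) (y + 1)) := by
      intro b
      apply Finset.filter_congr
      intro w _
      constructor
      · rintro h ⟨x, y, h1, h2⟩
        obtain ⟨s, hs, h3, h4⟩ := (mB _ _).1 h1
        exact (mem_filter.1 (h hs)).2 (h2.mono h3 h4)
      · intro h s hs
        refine mem_filter.2 ⟨hS hs, fun g => h ?_⟩
        have c := blk_corner g
        exact ⟨s.1 - 1, s.2 - 1, (mB _ _).2 ⟨s, hs, by omega, by omega⟩,
          g.mono (by omega) (by omega)⟩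
    rw [e True, e False]
    have := shape_eq hrr hE hB hL Z (fun w hw => (mem_filter.1 hw).2.1.1) (by
      intro w hw v hv hrel
      simp only [Z, mem_filter, mem_univ, true_and] at hw ⊢
      refine ⟨⟨hv, hQ _ (fun x y x' y' h1 h2 h3 =>
        hB _ _ _ _ (hE.monotone h1) (hE.monotone h2) h3) hL w v hw.1.1 hv hrel hw.1.2⟩,
        fun c hc x hx => ?_⟩
      have a1 := hw.2 c hc x hx
      rw [← hrel.2.2 x, a1]
      · dsimp only
        rw [hx, a1]; exact hnot c hc
      · have a2 := hnot _ (hT' c hc)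
        simp only [rev_val] at a2
        have a3 := hD x
        have a4 := hD (w x)
        dsimp only
        rw [hw.1.1, show E (r x) = D - c.1 by omega, show E (r (w x)) = D - c.2 by omega]
        exact a2) a
    exact Eq.trans (by congr) (this.trans (by congr))
  · have e : ∀ b : Prop,
        Z.filter (fun w => S ⊆ Tm.filter (fun s => ¬ Blk E b (a + 1) w s.1 s.2)) = ∅ := by
      intro b
      rw [Finset.filter_eq_empty_iff]
      intro w _ h
      exact hS (h.trans (Finset.filter_subset _ _))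
    rw [e, e]

/-- the middle part of the pattern occurs among the markers -/
def Box (E : α → ℕ) (D a : ℕ) {k : ℕ} (p : Fin k → ℕ) (T : Finset (Fin (D + 1) × Fin (D + 1))) :
    Prop :=
  ∃ c ∈ T, ∃ d ∈ T, (c.1 : ℕ) ≤ d.1 ∧ (c.2 : ℕ) ≤ d.2 ∧ ∃ x y : Fin k → α,
    (∀ s : Fin k, a ≤ s → s + a < k → (∃ t ∈ T, (t.1 : ℕ) = E (x s) ∧ (t.2 : ℕ) = E (y s)) ∧
      (c.1 : ℕ) ≤ E (x s) ∧ E (x s) ≤ d.1 ∧ (c.2 : ℕ) ≤ E (y s) ∧ E (y s) ≤ d.2) ∧
    ∀ s t : Fin k, a ≤ s → s + a < k → a ≤ t → t + a < k →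
      (s < t → x s < x t) ∧ (p s < p t → y s < y t)

/-- the shape of the two patterns -/
structure Pat (b : Prop) (a : ℕ) {k : ℕ} (p q : Fin k → ℕ) : Prop where
  lo : ∀ s t : Fin k, s < t → (t : ℕ) < a → Dir b (q s) (q t)
  hi : ∀ s t : Fin k, s < t → k ≤ s + a → Dir b (q s) (q t)
  lm : ∀ s t : Fin k, (s : ℕ) < a → a ≤ t → q s < q t
  mh : ∀ s t : Fin k, s + a < k → k ≤ t + a → q s < q t
  mid : ∀ s : Fin k, a ≤ s → s + a < k → q s = p s
  inj : Function.Injective p

theorem contains_box {r : α → α} (hr : StrictAnti r) {E : α → ℕ}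
    (hE : StrictMono E) {D : ℕ} (hD : ∀ x, E (r x) + E x = D) (hodd : ∀ x, E x % 2 = 1)
    {w : Equiv.Perm α} (hw : Sym r w) {b : Prop} {a k : ℕ} (hk : a + 1 + (a + 1) ≤ k)
    {p q : Fin k → ℕ} (h : Pat b (a + 1) p q) :
    GContains w q ↔ Box E D (a + 1) p (MidG E D b (a + 1) w) := by
  classical
  have mM : ∀ c : Fin (D + 1) × Fin (D + 1), c ∈ MidG E D b (a + 1) w ↔
      (∀ x, E x = c.1 → E (w x) = c.2) ∧ Blk E b (a + 1) w c.1 c.2 ∧
        Blk E b (a + 1) w (D - c.1) (D - c.2) := by
    intro c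
    simp only [MidG, mem_filter, mem_univ, true_and]
  have bd : ∀ x, 1 ≤ E x ∧ E x + 1 ≤ D := by
    intro x
    have := hD x; have := hodd x; have := hodd (r x)
    omega
  constructor
  · rintro ⟨o, ho, hq⟩
    have dir : ∀ s t, Dir b (q s) (q t) → Dir b (w (o s)) (w (o t)) := by
      rintro s t (g | g)
      · exact Or.inl ⟨g.1, (hq _ _).2 g.2⟩
      · exact Or.inr ⟨g.1, (hq _ _).2 g.2⟩
    have low : ∀ i j, (∀ s : Fin k, (s : ℕ) < a + 1 → E (o s) < i ∧ E (w (o s)) < j) →
        Blk E b (a + 1) w i j := by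
      intro i j g
      refine ⟨fun t => o ⟨min t a, by omega⟩, fun s t h1 h2 => ⟨ho ?_, dir _ _ (h.lo _ _ ?_ ?_)⟩,
        fun t ht => g _ ?_⟩
      · simp only [Fin.lt_def]; omega
      · simp only [Fin.lt_def]; omega
      · dsimp only; omega
      · dsimp only; omega
    have high : ∀ i j, (∀ s : Fin k, k ≤ s + (a + 1) → i < E (o s) ∧ j < E (w (o s))) →
        Blk E b (a + 1) w (D - i) (D - j) := by
      intro i j g
      refine ⟨fun t => r (o ⟨k - 1 - t, by omega⟩), fun s t h1 h2 => ⟨hr (ho ?_), ?_⟩,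
        fun t ht => ?_⟩
      · simp only [Fin.lt_def]; omega
      · rw [hw, hw]
        rcases dir _ _ (h.hi ⟨k - 1 - t, by omega⟩ ⟨k - 1 - s, by omega⟩
          (by simp only [Fin.lt_def]; omega) (by dsimp only; omega)) with c | c
        · exact Or.inl ⟨c.1, hr c.2⟩
        · exact Or.inr ⟨c.1, hr c.2⟩
      · have a1 := g ⟨k - 1 - t, by omega⟩ (by dsimp only; omega)
        dsimp only
        rw [hw]
        have a2 := hD (o ⟨k - 1 - t, by omega⟩)
        have a3 := hD (w (o ⟨k - 1 - t, by omega⟩))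
        omega
    obtain ⟨s0, m1, m2⟩ := Finset.exists_max_image
      (Finset.univ.filter (fun s : Fin k => (s : ℕ) < a + 1)) (fun s => E (w (o s)))
      ⟨⟨0, by omega⟩, by simp⟩
    obtain ⟨s1, m3, m4⟩ := Finset.exists_min_image
      (Finset.univ.filter (fun s : Fin k => k ≤ s + (a + 1))) (fun s => E (w (o s)))
      ⟨⟨k - 1, by omega⟩, by simp only [mem_filter, mem_univ, true_and]; omega⟩
    simp only [mem_filter, mem_univ, true_and] at m1 m2 m3 m4
    let t0 : Fin k := ⟨a, by omega⟩
    let t1 : Fin k := ⟨k - (a + 1), by omega⟩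
    have f0 : ∀ s : Fin k, (s : ℕ) < a + 1 → E (o s) ≤ E (o t0) := fun s g =>
      hE.monotone (ho.monotone (by simp only [Fin.le_def, t0]; omega))
    have f1 : ∀ s : Fin k, k ≤ s + (a + 1) → E (o t1) ≤ E (o s) := fun s g =>
      hE.monotone (ho.monotone (by simp only [Fin.le_def, t1]; omega))
    have f2 : ∀ s : Fin k, a + 1 ≤ s → E (o t0) < E (o s) ∧ E (w (o s0)) < E (w (o s)) :=
      fun s g => ⟨hE (ho (by simp only [Fin.lt_def, t0]; omega)), hE ((hq _ _).2 (h.lm _ _ m1 g))⟩
    have f3 : ∀ s : Fin k, s + (a + 1) < k → E (o s) < E (o t1) ∧ E (w (o s)) < E (w (o s1)) :=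
      fun s g => ⟨hE (ho (by simp only [Fin.lt_def, t1]; omega)), hE ((hq _ _).2 (h.mh _ _ g m3))⟩
    have k1 := f2 t1 (by simp only [t1]; omega)
    have k2 := f2 s1 (by omega)
    have o1 := hodd (o t0)
    have o2 := hodd (o t1)
    have o3 := hodd (w (o s0))
    have o4 := hodd (w (o s1))
    have b1 := bd (o t0)
    have b2 := bd (o t1)
    have b3 := bd (w (o s0))
    have b4 := bd (w (o s1))
    have inM : ∀ c : Fin (D + 1) × Fin (D + 1), (∀ x, E x = c.1 → E (w x) = c.2) →
        E (o t0) < c.1 → (c.1 : ℕ) < E (o t1) → E (w (o s0)) < c.2 → (c.2 : ℕ) < E (w (o s1)) →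
        c ∈ MidG E D b (a + 1) w := by
      intro c g1 g2 g3 g4 g5
      refine (mM c).2 ⟨g1, low _ _ (fun s g => ?_), high _ _ (fun s g => ?_)⟩
      · have := f0 s g; have := m2 s g; omega
      · have := f1 s g; have := m4 s g; omega
    refine ⟨(⟨E (o t0) + 1, by omega⟩, ⟨E (w (o s0)) + 1, by omega⟩), inM _ ?_ ?_ ?_ ?_ ?_,
      (⟨E (o t1) - 1, by omega⟩, ⟨E (w (o s1)) - 1, by omega⟩), inM _ ?_ ?_ ?_ ?_ ?_, ?_, ?_,
      o, fun s => w (o s), fun s g1 g2 => ⟨⟨(⟨E (o s), by have := bd (o s); omega⟩,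
        ⟨E (w (o s)), by have := bd (w (o s)); omega⟩), inM _ ?_ ?_ ?_ ?_ ?_, rfl, rfl⟩, ?_⟩,
      fun s t g1 g2 g3 g4 => ⟨fun g => ho g, fun g => (hq _ _).2 ?_⟩⟩
    · intro x g; have := hodd x; dsimp only at g; omega
    · dsimp only; omega
    · dsimp only; omega
    · dsimp only; omega
    · dsimp only; omega
    · intro x g; have := hodd x; dsimp only at g; omega
    · dsimp only; omega
    · dsimp only; omega
    · dsimp only; omega
    · dsimp only; omega
    · dsimp only; omega
    · dsimp only; omega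
    · intro x g
      rw [hE.injective g]
    · exact (f2 s g1).1
    · exact (f3 s g2).1
    · exact (f2 s g1).2
    · exact (f3 s g2).2
    · have := f2 s g1; have := f3 s g2
      dsimp only
      omega
    · rw [h.mid s g1 g2, h.mid t g3 g4]; exact g
  · rintro ⟨c, hc, d, hd, l1, l2, x, y, g1, g2⟩
    obtain ⟨u, u1, u2⟩ := ((mM c).1 hc).2.1
    obtain ⟨z, z1, z2⟩ := ((mM d).1 hd).2.2
    have wy : ∀ s : Fin k, a + 1 ≤ s → s + (a + 1) < k → w (x s) = y s := by
      intro s h1 h2
      obtain ⟨t, ht, a1, a2⟩ := (g1 s h1 h2).1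
      exact hE.injective ((((mM t).1 ht).1 (x s) a1.symm).trans a2)
    let o : Fin k → α := fun s => if (s : ℕ) < a + 1 then u s
      else if k ≤ s + (a + 1) then r (z (k - 1 - s)) else x s
    have o1 : ∀ s : Fin k, (s : ℕ) < a + 1 → o s = u s := fun s g => if_pos g
    have o2 : ∀ s : Fin k, k ≤ s + (a + 1) → o s = r (z (k - 1 - s)) := by
      intro s g
      simp only [o]
      rw [if_neg (by omega), if_pos g]
    have o3 : ∀ s : Fin k, a + 1 ≤ s → s + (a + 1) < k → o s = x s := by
      intro s g g'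
      simp only [o]
      rw [if_neg (by omega), if_neg (by omega)]
    have up : ∀ s : Fin k, a + 1 ≤ s → (c.1 : ℕ) ≤ E (o s) ∧ (c.2 : ℕ) ≤ E (w (o s)) := by
      intro s g
      by_cases e : k ≤ s + (a + 1)
      · rw [o2 s e, hw]
        have a1 := z2 (k - 1 - s) (by have := s.2; omega)
        have a2 := hD (z (k - 1 - s))
        have a3 := hD (w (z (k - 1 - s)))
        omega
      · rw [o3 s g (by omega), wy s g (by omega)]
        have := (g1 s g (by omega)).2
        omega
    have dn : ∀ s : Fin k, s + (a + 1) < k → E (o s) ≤ d.1 ∧ E (w (o s)) ≤ d.2 := by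
      intro s g
      by_cases e : (s : ℕ) < a + 1
      · rw [o1 s e]
        have := u2 s e
        omega
      · rw [o3 s (by omega) g, wy s (by omega) g]
        have := (g1 s (by omega) g).2
        omega
    have both : ∀ (m n : ℕ) (y y' : α), Dir b m n → Dir b y y' →
        (m < n ∧ y < y') ∨ (n < m ∧ y' < y) := by
      rintro m n y y' (a1 | a1) (a2 | a2)
      · exact Or.inl ⟨a1.2, a2.2⟩
      · exact (a2.1 a1.1).elim
      · exact (a1.1 a2.1).elim
      · exact Or.inr ⟨a1.2, a2.2⟩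
    have key : ∀ s t : Fin k, s < t → o s < o t ∧
        ((q s < q t ∧ w (o s) < w (o t)) ∨ (q t < q s ∧ w (o t) < w (o s))) := by
      intro s t hst
      have hst' : (s : ℕ) < t := hst
      have ht := t.2
      by_cases e1 : (t : ℕ) < a + 1
      · rw [o1 s (by omega), o1 t e1]
        exact ⟨(u1 s t hst' e1).1, both _ _ _ _ (h.lo s t hst e1) (u1 s t hst' e1).2⟩
      by_cases e2 : (s : ℕ) < a + 1
      · have a1 := up t (by omega)
        have a2 := u2 s e2
        rw [← o1 s e2] at a2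
        exact ⟨hE.lt_iff_lt.1 (by omega),
          Or.inl ⟨h.lm s t e2 (by omega), hE.lt_iff_lt.1 (by omega)⟩⟩
      by_cases e3 : k ≤ s + (a + 1)
      · rw [o2 s e3, o2 t (by omega), hw, hw]
        have a1 := z1 (k - 1 - t) (k - 1 - s) (by omega) (by omega)
        refine ⟨hr a1.1, both _ _ _ _ (h.hi s t hst e3) ?_⟩
        rcases a1.2 with a2 | a2
        · exact Or.inl ⟨a2.1, hr a2.2⟩
        · exact Or.inr ⟨a2.1, hr a2.2⟩
      by_cases e4 : k ≤ t + (a + 1)
      · have a1 := dn s (by omega)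
        have a2 := z2 (k - 1 - t) (by omega)
        have a3 := hD (z (k - 1 - t))
        have a4 := hD (w (z (k - 1 - t)))
        rw [o2 t e4, hw]
        exact ⟨hE.lt_iff_lt.1 (by omega),
          Or.inl ⟨h.mh s t (by omega) e4, hE.lt_iff_lt.1 (by omega)⟩⟩
      · rw [o3 s (by omega) (by omega), o3 t (by omega) (by omega), wy s (by omega) (by omega),
          wy t (by omega) (by omega), h.mid s (by omega) (by omega), h.mid t (by omega) (by omega)]
        refine ⟨(g2 s t (by omega) (by omega) (by omega) (by omega)).1 hst, ?_⟩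
        rcases lt_trichotomy (p s) (p t) with a1 | a1 | a1
        · exact Or.inl ⟨a1, (g2 s t (by omega) (by omega) (by omega) (by omega)).2 a1⟩
        · exact absurd (h.inj a1) hst.ne
        · exact Or.inr ⟨a1, (g2 t s (by omega) (by omega) (by omega) (by omega)).2 a1⟩
    refine ⟨o, fun s t g => (key s t g).1, fun s t => ?_⟩
    rcases lt_trichotomy s t with e | e | e
    · rcases (key s t e).2 with a1 | a1
      · exact ⟨fun _ => a1.1, fun _ => a1.2⟩
      · exact ⟨fun g => absurd g (not_lt.2 a1.2.le), fun g => absurd g (not_lt.2 a1.1.le)⟩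
    · rw [e]; exact ⟨fun g => absurd g (lt_irrefl _), fun g => absurd g (lt_irrefl _)⟩
    · rcases (key t s e).2 with a1 | a1
      · exact ⟨fun g => absurd g (not_lt.2 a1.2.le), fun g => absurd g (not_lt.2 a1.1.le)⟩
      · exact ⟨fun _ => a1.1, fun _ => a1.2⟩

open Classical in
theorem generalG {r : α → α} (hrr : ∀ x, r (r x) = x) (hr : StrictAnti r) {E : α → ℕ}
    (hE : StrictMono E) {D : ℕ} (hD : ∀ x, E (r x) + E x = D) (hodd : ∀ x, E x % 2 = 1)
    (Q : Equiv.Perm α → Prop) (hQ : Stable r Q) {a k : ℕ} (hk : a + 1 + (a + 1) ≤ k)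
    {p q q' : Fin k → ℕ} (h : Pat True (a + 1) p q) (h' : Pat False (a + 1) p q') :
    ((Finset.univ.filter (fun w => Sym r w ∧ Q w)).filter (fun w => ¬ GContains w q)).card =
    ((Finset.univ.filter (fun w => Sym r w ∧ Q w)).filter (fun w => ¬ GContains w q')).card := by
  have e1 : (Finset.univ.filter (fun w => Sym r w ∧ Q w)).filter (fun w => ¬ GContains w q) =
      (Finset.univ.filter (fun w => Sym r w ∧ Q w)).filter
        (fun w => ¬ Box E D (a + 1) p (MidG E D True (a + 1) w)) := by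
    apply Finset.filter_congr
    intro w hw
    rw [contains_box hr hE hD hodd (mem_filter.1 hw).2.1 hk h]
  have e2 : (Finset.univ.filter (fun w => Sym r w ∧ Q w)).filter (fun w => ¬ GContains w q') =
      (Finset.univ.filter (fun w => Sym r w ∧ Q w)).filter
        (fun w => ¬ Box E D (a + 1) p (MidG E D False (a + 1) w)) := by
    apply Finset.filter_congr
    intro w hw
    rw [contains_box hr hE hD hodd (mem_filter.1 hw).2.1 hk h']
  rw [e1, e2]
  have := ie_pred (Finset.univ.filter (fun w => Sym r w ∧ Q w)) (MidG E D True (a + 1))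
    (MidG E D False (a + 1))
    (fun T => Eq.trans (by congr) ((claimG hrr hE hD Q hQ a T).trans (by congr)))
    (fun T => ¬ Box E D (a + 1) p T)
  exact Eq.trans (by congr) (this.trans (by congr))

end Gen

theorem mid_bounds {a k : ℕ} {p : Equiv.Perm (Fin k)}
    (hp : ∀ i : Fin k, ((i : ℕ) < a ∨ k ≤ i + a) → p i = i) (s : Fin k) (h1 : a ≤ s)
    (h2 : s + a < k) : a ≤ (p s : ℕ) ∧ (p s : ℕ) + a < k := by
  by_contra d
  have e := p.injective (hp (p s) (by omega))
  rw [e] at d
  omega

theorem oneLine_inj {k : ℕ} (p : Equiv.Perm (Fin k)) : Function.Injective (oneLine p) := by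
  intro s t h
  simp only [oneLine] at h
  exact p.injective (Fin.ext (by omega))

theorem pat_true {a k : ℕ} {p : Equiv.Perm (Fin k)}
    (hp : ∀ i : Fin k, ((i : ℕ) < a ∨ k ≤ i + a) → p i = i) :
    Pat True a (oneLine p) (oneLine p) := by
  refine ⟨fun s t h1 h2 => Or.inl ⟨trivial, ?_⟩, fun s t h1 h2 => Or.inl ⟨trivial, ?_⟩,
    fun s t h1 h2 => ?_, fun s t h1 h2 => ?_, fun _ _ _ => rfl, oneLine_inj p⟩
  · have : (s : ℕ) < t := h1
    simp only [oneLine]
    rw [hp s (by omega), hp t (by omega)]; omega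
  · have : (s : ℕ) < t := h1
    simp only [oneLine]
    rw [hp s (by omega), hp t (by omega)]; omega
  · simp only [oneLine]
    rw [hp s (by omega)]
    by_cases c : k ≤ t + a
    · rw [hp t (by omega)]; omega
    · have := mid_bounds hp t h2 (by omega); omega
  · simp only [oneLine]
    rw [hp t (by omega)]
    by_cases c : (s : ℕ) < a
    · rw [hp s (by omega)]; omega
    · have := mid_bounds hp s (by omega) h1; omega

theorem pat_false {a k : ℕ} (hk : a + a ≤ k) {p : Equiv.Perm (Fin k)}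
    (hp : ∀ i : Fin k, ((i : ℕ) < a ∨ k ≤ i + a) → p i = i) :
    Pat False a (oneLine p) (flipEnds a p) := by
  refine ⟨fun s t h1 h2 => Or.inr ⟨not_false, ?_⟩, fun s t h1 h2 => Or.inr ⟨not_false, ?_⟩,
    fun s t h1 h2 => ?_, fun s t h1 h2 => ?_, fun s h1 h2 => ?_, oneLine_inj p⟩
  · have : (s : ℕ) < t := h1
    simp only [flipEnds]
    rw [if_pos h2, if_pos (by omega)]; omega
  · have : (s : ℕ) < t := h1
    have := t.2
    simp only [flipEnds]
    rw [if_neg (by omega), if_pos (by omega), if_neg (by omega), if_pos h2]; omega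
  · have := t.2
    simp only [flipEnds]
    rw [if_pos h1, if_neg (by omega)]
    split_ifs with c
    · omega
    · have := mid_bounds hp t h2 (by omega); omega
  · have := t.2
    simp only [flipEnds]
    rw [if_neg (show ¬ (t : ℕ) < a by omega), if_pos h2]
    split_ifs with c c'
    · omega
    · omega
    · have := mid_bounds hp s (by omega) h1; omega
  · simp only [flipEnds, oneLine]
    rw [if_neg (by omega), if_neg (by omega)]

/-- odd coordinates on `[±n]` -/
def coord (n : ℕ) (x : PM n) : ℕ :=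
  (if (x : ℤ) < 0 then 2 * ((x : ℤ) + n) + 1 else 2 * ((x : ℤ) + n) - 1).toNat

theorem signed_bwx (a k : ℕ) (hk : a + a ≤ k) (p : Equiv.Perm (Fin k))
    (hp : ∀ i : Fin k, ((i : ℕ) < a ∨ k ≤ i + a) → p i = i) (n : ℕ) (J : Set ℕ) :
    {w : Equiv.Perm (PM n) | IsSigned w ∧ ¬ Contains w (oneLine p) ∧
        {i : PM n | 0 < (i : ℤ) ∧ 0 < (w i : ℤ)}.ncard ∈ J}.ncard =
      {w : Equiv.Perm (PM n) | IsSigned w ∧ ¬ Contains w (flipEnds a p) ∧
        {i : PM n | 0 < (i : ℤ) ∧ 0 < (w i : ℤ)}.ncard ∈ J}.ncard := by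
  classical
  cases a with
  | zero =>
    have e : flipEnds 0 p = oneLine p := by
      funext s
      have := s.2
      simp only [flipEnds, oneLine]
      rw [if_neg (by omega), if_neg (by omega)]
    rw [e]
  | succ a =>
    have hrr : ∀ x, negPM n (negPM n x) = x := fun x => Subtype.ext (by simp [negPM])
    have hr : StrictAnti (negPM n) := by
      intro a b hab
      have : (a : ℤ) < b := hab
      show -(b : ℤ) < -(a : ℤ)
      omega
    have rng : ∀ x : PM n, (x : ℤ) ≠ 0 ∧ -(n : ℤ) ≤ x ∧ (x : ℤ) ≤ n := by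
      intro x
      have := x.2
      simpa only [mem_erase, mem_Icc] using this
    have hE : StrictMono (coord n) := by
      intro x y h
      have h' : (x : ℤ) < y := h
      have := rng x; have := rng y
      simp only [coord]
      split_ifs <;> omega
    have hD : ∀ x, coord n (negPM n x) + coord n x = 4 * n := by
      intro x
      have := rng x
      have e : ((negPM n x : PM n) : ℤ) = -(x : ℤ) := rfl
      simp only [coord, e]
      split_ifs <;> omega
    have hodd : ∀ x, coord n x % 2 = 1 := by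
      intro x
      have := rng x
      simp only [coord]
      split_ifs <;> omega
    have := generalG hrr hr hE hD hodd _ (stable_neg (negPM n) J) hk (pat_true hp)
      (pat_false hk hp)
    have e : ∀ q : Fin k → ℕ, {w : Equiv.Perm (PM n) | IsSigned w ∧ ¬ Contains w q ∧
          {i : PM n | 0 < (i : ℤ) ∧ 0 < (w i : ℤ)}.ncard ∈ J} =
        ↑((Finset.univ.filter (fun w => Sym (negPM n) w ∧
          (negSet (negPM n) w).ncard ∈ J)).filter (fun w => ¬ GContains w q)) := by
      intro q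
      ext w
      simp only [Set.mem_ofPred_eq, coe_filter, mem_filter, mem_univ, true_and, isSigned_iff]
      constructor
      · rintro ⟨a, b, c⟩
        exact ⟨⟨a, by rw [negSet_pos a]; exact c⟩, b⟩
      · rintro ⟨⟨a, c⟩, b⟩
        exact ⟨a, b, by rw [← negSet_pos a]; exact c⟩
    rw [e, e, Set.ncard_coe_finset, Set.ncard_coe_finset]
    exact Eq.trans (by congr) (this.trans (by congr))

end Pool.Agent.P.MP_689636_co.BWX
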