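import Pool.Agent.P.MP_689636_co.Main

open Pool.Agent.P.MP_689636_co

/-- The former hand-in `WilfEquiv`, now the instance `a = 2` of `SignedBWX`. -/
theorem Pool.Agent.P.MP_689636_co.variantWilfEquiv :
    ∀ k : ℕ, 5 ≤ k → ∀ n : ℕ,
      {w : Equiv.Perm (PM n) | IsSigned w ∧ ¬ Contains w (iota k)}.ncard =
        {w : Equiv.Perm (PM n) | IsSigned w ∧ ¬ Contains w (tau k)}.ncard :=
  Pool.Agent.P.MP_689636_co.wilf_equiv
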